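import Pool.Agent.Lib.MP_8fac41_lc.FR.P.GelE

/-!
# FRP-Fork: one new element `α` just below `ν`, below `ν` for all `ξ`, or for all `ξ` but one

First `r = addTop (rst t ν) α (fun ξ => t.P ξ ν)` (`addTop_TS`, `brn_P_rst`), then `gelE t` with `b ξ = insert α (t.P ξ ν)` for all `ξ`,
respectively `b ξ₀ = t.P ξ₀ ν` (all but one `ξ`: `Nrm.tail` of `U1` gives that `{ξ | ξ ≠ ξ₀}` is in `U1`).
-/

set_option autoImplicit false

universe u

namespace Pool.MP_8fac41_lc.FR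

open Cardinal Set Filter

variable {D X : Type u} [LinearOrder D] [WellFoundedLT D] [LinearOrder X] [WellFoundedLT X] [Sett D X]


private theorem fork_br {t : Pre D X} (ht : TS t) {ν α : X} (hα : ∀ x ∈ t.a, x < ν → x < α) (hαν : α < ν)
    (ξ : D) : Br (addTop (rst t ν) α (fun ξ => t.P ξ ν)) ξ (insert α (t.P ξ ν)) := by
  refine ⟨?_, ?_, ?_⟩
  · intro x hx
    rcases hx with rfl | hx
    · exact Or.inl rfl
    · exact Or.inr ⟨(ht.sup ξ x ν hx).1, ht.lt ξ x ν hx⟩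
  · intro x β hr hβ
    rcases hr with ⟨hr, hlt⟩ | ⟨rfl, hx⟩
    · rcases hβ with rfl | hβ
      · exact absurd (hα _ (ht.sup ξ x _ hr).2 hαν) (lt_irrefl _)
      · exact Or.inr (ht.trans ξ x β ν hr hβ)
    · exact Or.inr hx
  · intro x hx y hy hxy
    rcases hy with rfl | hy
    · rcases hx with rfl | hx
      · exact absurd hxy (lt_irrefl _)
      · exact Or.inr ⟨rfl, hx⟩
    · have hyν : y < ν := ht.lt ξ y ν hy
      have hyα : y < α := hα y (ht.sup ξ y ν hy).1 hyν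
      rcases hx with rfl | hx
      · exact absurd (hxy.trans hyα) (lt_irrefl _)
      · exact Or.inl ⟨ht.tree ξ x y ν hx hy hxy, hyν⟩

private theorem fork_br' {t : Pre D X} (ht : TS t) {ν α : X} (hα : ∀ x ∈ t.a, x < ν → x < α) (hαν : α < ν)
    (ξ : D) : Br (addTop (rst t ν) α (fun ξ => t.P ξ ν)) ξ (t.P ξ ν) := by
  refine ⟨?_, ?_, ?_⟩
  · intro x hx
    exact Or.inr ⟨(ht.sup ξ x ν hx).1, ht.lt ξ x ν hx⟩
  · intro x β hr hβ
    rcases hr with ⟨hr, hlt⟩ | ⟨rfl, hx⟩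
    · exact ht.trans ξ x β ν hr hβ
    · exact hx
  · intro x hx y hy hxy
    exact Or.inl ⟨ht.tree ξ x y ν hx hy hxy, ht.lt ξ y ν hy⟩

theorem fork (t : E D X) {ν α : X} (hν : ν ∈ t.1.a) (hα : ∀ x ∈ t.1.a, x < ν → x < α) (hαν : α < ν) (ξ₀ : D) :
    ∃ t1 t2 : E D X, t1 ≤ t ∧ t2 ≤ t ∧ Sim {ξ₀} ν t1.1 t2.1 ∧ α ∈ t1.1.a ∧ α ∈ t2.1.a ∧ t1.1.r ξ₀ α ν ∧
      ¬ t2.1.r ξ₀ α ν ∧ ∀ x ∈ t1.1.a, x < ν → x ≤ α := by
  classical
  have ht : TS t.1 := t.2.1
  have hαt : α ∉ t.1.a := fun h => lt_irrefl _ (hα α h hαν)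
  have hm : ∀ x ∈ (rst t.1 ν).a, x < α := fun x hx => hα x hx.1 hx.2
  set r : Pre D X := addTop (rst t.1 ν) α (fun ξ => t.1.P ξ ν) with hrdef
  have hr : TS r := addTop_TS (rst_TS ht ν) hm (brn_P_rst ht hν)
  have hlt : ∀ x ∈ r.a, x < ν := by
    intro x hx
    rcases hx with rfl | hx
    · exact hαν
    · exact hx.2
  have hPa : ∀ ξ, t.1.P ξ ν ⊆ t.1.a := fun ξ x hx => (ht.sup ξ x ν hx).1
  have hne : ∀ᶠ ξ in F1 D X, ξ ≠ ξ₀ := by
    filter_upwards [(Sett.n1 (D := D) (X := X)).tail ξ₀] with ξ hξ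
    exact hξ.ne'
  have hmeas : ∀ x ∈ t.1.a, x < ν → ∀ᶠ ξ in F1 D X, x ∈ t.1.P ξ ν := fun x hx hxν =>
    ht.meas x hx ν hν hxν
  have h1 : GH t.1 r ν (fun ξ => insert α (t.1.P ξ ν)) := by
    refine ⟨ht, hν, hr, hlt, addTop_le hm _, ⟨fun ξ => fork_br ht hα hαν ξ, ?_⟩, ?_⟩
    · intro x hx
      rcases hx with rfl | hx
      · exact Filter.Eventually.of_forall fun ξ => Or.inl rfl
      · filter_upwards [hmeas x hx.1 hx.2] with ξ hξ
        exact Or.inr hξ
    · intro ξ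
      ext x
      constructor
      · rintro ⟨hx, hxa⟩
        rcases hx with rfl | hx
        · exact absurd hxa hαt
        · exact hx
      · intro hx
        exact ⟨Or.inr hx, hPa ξ hx⟩
  have h2 : GH t.1 r ν (fun ξ => if ξ = ξ₀ then t.1.P ξ ν else insert α (t.1.P ξ ν)) := by
    refine ⟨ht, hν, hr, hlt, addTop_le hm _, ⟨fun ξ => ?_, ?_⟩, ?_⟩
    · by_cases h : ξ = ξ₀
      · simp only [if_pos h]
        exact fork_br' ht hα hαν ξ
      · simp only [if_neg h]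
        exact fork_br ht hα hαν ξ
    · intro x hx
      rcases hx with rfl | hx
      · filter_upwards [hne] with ξ hξ
        simp only [if_neg hξ]
        exact Or.inl rfl
      · filter_upwards [hmeas x hx.1 hx.2] with ξ hξ
        by_cases h : ξ = ξ₀
        · simp only [if_pos h]
          exact hξ
        · simp only [if_neg h]
          exact Or.inr hξ
    · intro ξ
      by_cases h : ξ = ξ₀
      · simp only [if_pos h]
        exact inter_eq_left.2 (hPa ξ)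
      · simp only [if_neg h]
        ext x
        constructor
        · rintro ⟨hx, hxa⟩
          rcases hx with rfl | hx
          · exact absurd hxa hαt
          · exact hx
        · intro hx
          exact ⟨Or.inr hx, hPa ξ hx⟩
  obtain ⟨t1, h1t, h1r, h1P, -, h1ν⟩ := gelE t h1
  obtain ⟨t2, h2t, h2r, h2P, -, h2ν⟩ := gelE t h2
  have key : ∀ s : E D X, rst s.1 ν = r → α ∈ s.1.a := by
    intro s hs
    have : α ∈ (rst s.1 ν).a := by
      rw [hs]
      exact Or.inl rfl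
    exact this.1
  refine ⟨t1, t2, h1t, h2t, ⟨h1ν, h2ν, h1r.trans h2r.symm, ?_⟩, key t1 h1r, key t2 h2r, ?_, ?_, ?_⟩
  · intro ξ hξ
    have hξ' : ξ ≠ ξ₀ := fun h => hξ (by rw [h]; exact mem_singleton _)
    rw [h1P, h2P, if_neg hξ']
  · have : α ∈ t1.1.P ξ₀ ν := by
      rw [h1P]
      exact Or.inl rfl
    exact this
  · intro h
    have h' : α ∈ t2.1.P ξ₀ ν := h
    rw [h2P, if_pos rfl] at h'
    exact hαt (hPa ξ₀ h')
  · intro x hx hxν
    have : x ∈ (rst t1.1 ν).a := ⟨hx, hxν⟩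
    rw [h1r] at this
    rcases this with rfl | h
    · exact le_rfl
    · exact (hα x h.1 h.2).le

end Pool.MP_8fac41_lc.FR
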