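import Pool.Agent.Lib.MP_8fac41_lc.FR.P.GelE

/-!
# FRP-Red: reducts

`redE`: `addE (rst t ν) ν:=τ` (`rst_TS`, `brn_P_rst`). `reduct`: `gelE t` with `r = q.1` and the branch of `brn_Q_ite`
(`τ`, `m = top q`). `b ξ ∩ t.a = t.P ξ ν`: let `α ∈ t.a`. If `α ∈ b ξ` then `α ∈ q.a`, so `α < ν`. If `τ ≤_ξ top q` and `α ≤_ξ top q` in `q`,
then `α < τ`, so `α <_ξ τ` (`tree`; if `τ = top q` trivial), i.e. `α ∈ t.P ξ ν`. Otherwise `α ≤_ξ τ`, `α ≠ τ` (`τ ∉ t.a`: all elements of `t.a ∩ Iio ν`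
are less than `τ < ν`).
-/

set_option autoImplicit false

universe u

namespace Pool.MP_8fac41_lc.FR

open Cardinal Set Filter

variable {D X : Type u} [LinearOrder D] [WellFoundedLT D] [LinearOrder X] [WellFoundedLT X] [Sett D X]


/-- the reduct as a condition -/
noncomputable def redE (t : E D X) (ν τ : X) (hν : ν ∈ t.1.a) (hτ : ∀ x ∈ t.1.a, x < ν → x < τ) : E D X :=
  addE (rst t.1 ν) (rst_TS t.2.1 ν) τ (fun x hx => hτ x hx.1 hx.2) (fun ξ => t.1.P ξ ν) (brn_P_rst t.2.1 hν)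

theorem top_redE (t : E D X) (ν τ : X) (hν : ν ∈ t.1.a) (hτ : ∀ x ∈ t.1.a, x < ν → x < τ) :
    top (redE t ν τ hν hτ) = τ := top_addE _ _ _ _ _ _

theorem redE_le (t : E D X) (ν τ : X) (hν : ν ∈ t.1.a) (hτ : ∀ x ∈ t.1.a, x < ν → x < τ) {c : E D X}
    (hc : top c < ν) (h : t ≤ c) : redE t ν τ hν hτ ≤ c := by
  have h0 : ∀ x ∈ (rst t.1 ν).a, x < τ := fun x hx => hτ x hx.1 hx.2
  have h1 : addTop (rst t.1 ν) τ (fun ξ => t.1.P ξ ν) ≤ rst t.1 ν := addTop_le h0 _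
  have h2 : rst t.1 ν ≤ c.1 := le_rst_of h (fun x hx => (le_top' c hx).trans_lt hc)
  exact h1.trans h2

theorem reduct (t : E D X) {ν τ : X} (hν : ν ∈ t.1.a) (hτ : ∀ x ∈ t.1.a, x < ν → x < τ) (hτν : τ < ν)
    {q : E D X} (hq : top q < ν) (hqt : q ≤ redE t ν τ hν hτ) :
    ∃ t' : E D X, t' ≤ t ∧ t' ≤ q ∧ rst t'.1 ν = q.1 ∧ ν ∈ t'.1.a ∧ ∀ᶠ ξ in F1 D X, t'.1.P ξ ν = q.1.Q ξ (top q) := by
  have hq' : q.1 ≤ addTop (rst t.1 ν) τ (fun ξ => t.1.P ξ ν) := hqt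
  have hτq : τ ∈ q.1.a := hq'.1 (Or.inl rfl)
  have h0 : ∀ x ∈ (rst t.1 ν).a, x < τ := fun x hx => hτ x hx.1 hx.2
  have hle : q.1 ≤ rst t.1 ν := hq'.trans (addTop_le h0 _)
  have hτt : τ ∉ t.1.a := fun h => lt_irrefl _ (hτ τ h hτν)
  -- the relations with τ
  have hrel : ∀ ξ α, α ∈ t.1.a → α < ν → (q.1.r ξ α τ ↔ t.1.r ξ α ν) := by
    intro ξ α hα hαν
    rw [hq'.2 ξ α (Or.inr ⟨hα, hαν⟩) τ (Or.inl rfl)]
    constructor
    · rintro (h | h)
      · exact absurd (t.2.1.sup ξ α τ h.1).2 hτt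
      · exact h.2
    · intro h
      exact Or.inr ⟨rfl, h⟩
  have hGH : GH t.1 q.1 ν (fun ξ => {α | (τ ∈ q.1.Q ξ (top q) ∧ α ∈ q.1.Q ξ (top q)) ∨
      (τ ∉ q.1.Q ξ (top q) ∧ α ∈ q.1.Q ξ τ)}) := by
    refine ⟨t.2.1, hν, q.2.1, fun x hx => (le_top' q hx).trans_lt hq, hle,
      brn_Q_ite q.2.1 (top_mem q) (fun x hx => le_top' q hx) hτq, ?_⟩
    intro ξ
    ext α
    constructor
    · rintro ⟨hb, hα⟩
      have hαq : α ∈ q.1.a := by
        rcases hb with ⟨_, h | h⟩ | ⟨_, h | h⟩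
        · exact (q.2.1.sup ξ _ _ h).1
        · rw [h]; exact top_mem q
        · exact (q.2.1.sup ξ _ _ h).1
        · rw [h]; exact hτq
      have hαν : α < ν := (le_top' q hαq).trans_lt hq
      have hατ : α < τ := hτ α hα hαν
      show t.1.r ξ α ν
      rw [← hrel ξ α hα hαν]
      rcases hb with ⟨hτQ, hαQ⟩ | ⟨_, hαQ⟩
      · rcases hτQ with h1 | h1
        · rcases hαQ with h2 | h2
          · exact q.2.1.tree ξ α τ (top q) h2 h1 hατ
          · rw [← h2] at h1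
            exact absurd (q.2.1.lt ξ τ α h1) (not_lt.mpr hατ.le)
        · rcases hαQ with h2 | h2
          · rw [← h1] at h2
            exact h2
          · exact absurd (h2.trans h1.symm) hατ.ne
      · rcases hαQ with h2 | h2
        · exact h2
        · exact absurd h2 hατ.ne
    · intro hα
      have hα' : t.1.r ξ α ν := hα
      have hαt : α ∈ t.1.a := (t.2.1.sup ξ _ _ hα').1
      have hαν : α < ν := t.2.1.lt ξ _ _ hα'
      have h1 : q.1.r ξ α τ := (hrel ξ α hαt hαν).mpr hα'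
      refine ⟨?_, hαt⟩
      by_cases hτQ : τ ∈ q.1.Q ξ (top q)
      · refine Or.inl ⟨hτQ, ?_⟩
        rcases hτQ with h2 | h2
        · exact Or.inl (q.2.1.trans ξ _ _ _ h1 h2)
        · rw [h2] at h1
          exact Or.inl h1
      · exact Or.inr ⟨hτQ, Or.inl h1⟩
  obtain ⟨t', h1, h2, h3, h4, h5⟩ := gelE t hGH
  refine ⟨t', h1, ?_, h2, h5, ?_⟩
  · show t'.1 ≤ q.1
    rw [← h2]
    exact le_rst t'.1 ν
  · filter_upwards [(brn_Q q.2.1 (top_mem q) (fun x hx => le_top' q hx)).meas τ hτq] with ξ hξ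
    rw [h3 ξ]
    ext α
    constructor
    · rintro (h | h)
      · exact h.2
      · exact absurd hξ h.1
    · intro h
      exact Or.inl ⟨hξ, h⟩

end Pool.MP_8fac41_lc.FR
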