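import Pool.Agent.Lib.MP_8fac41_lc.FR.P.GelE

/-!
# FRP-Trf: transfer

`GH t1 (rst s0 ν) ν b` with `b ξ = s0.P ξ ν` for `ξ ∉ N` and `b ξ = dc (rst s0 ν) ξ (t1.P ξ ν)` for `ξ ∈ N`.
`b ξ ∩ t1.a = t1.P ξ ν`: for `ξ ∉ N` by `P_inter` (`s0 ≤ t0`), `t1.a ∩ Iio ν = t0.a ∩ Iio ν`, `Sim.P`; for `ξ ∈ N` an old element in the
downward closure of `t1.P ξ ν` is in it, because `s0` and `t0`, and `t0` and `t1`, agree on the old elements `< ν`.
-/

set_option autoImplicit false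

universe u

namespace Pool.MP_8fac41_lc.FR

open Cardinal Set Filter

variable {D X : Type u} [LinearOrder D] [WellFoundedLT D] [LinearOrder X] [WellFoundedLT X] [Sett D X]


theorem transfer {N : Set D} (hN : ∀ᶠ ξ in F1 D X, ξ ∉ N) {ν : X} {t0 t1 s0 : E D X} (h : Sim N ν t0.1 t1.1)
    (hs : s0 ≤ t0) : ∃ s1 : E D X, s1 ≤ t1 ∧ Sim N ν s1.1 s0.1 := by
  classical
  have hs' : s0.1 ≤ t0.1 := hs
  have hν0 : ν ∈ s0.1.a := hs'.1 h.m0
  -- old elements below `ν`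
  have mem01 : ∀ α, α ∈ t1.1.a → α < ν → α ∈ t0.1.a := by
    intro α h1 h2
    have h3 : α ∈ (rst t1.1 ν).a := ⟨h1, h2⟩
    rw [← h.rst] at h3
    exact h3.1
  have rel01 : ∀ ξ α β, t1.1.r ξ α β → β < ν → t0.1.r ξ α β := by
    intro ξ α β h1 h2
    have h3 : (rst t1.1 ν).r ξ α β := ⟨h1, h2⟩
    rw [← h.rst] at h3
    exact h3.1
  have rel10 : ∀ ξ α β, t0.1.r ξ α β → β < ν → t1.1.r ξ α β := by
    intro ξ α β h1 h2
    have h3 : (rst t0.1 ν).r ξ α β := ⟨h1, h2⟩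
    rw [h.rst] at h3
    exact h3.1
  let b : D → Set X := fun ξ => if ξ ∈ N then dc (rst s0.1 ν) ξ (t1.1.P ξ ν) else s0.1.P ξ ν
  have bN : ∀ ξ, ξ ∈ N → b ξ = dc (rst s0.1 ν) ξ (t1.1.P ξ ν) := fun ξ hξ => if_pos hξ
  have bN' : ∀ ξ, ξ ∉ N → b ξ = s0.1.P ξ ν := fun ξ hξ => if_neg hξ
  have hGH : GH t1.1 (rst s0.1 ν) ν b := by
    refine ⟨t1.2.1, h.m1, rst_TS s0.2.1 ν, fun x hx => hx.2, ?_, ⟨?_, ?_⟩, ?_⟩
    · rw [← h.rst]
      exact rst_mono hs' ν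
    · intro ξ
      by_cases hξ : ξ ∈ N
      · rw [bN ξ hξ]
        refine br_dc (rst_TS s0.2.1 ν) ?_ ?_
        · intro α hα
          have h1 : α < ν := t1.2.1.lt ξ α ν hα
          exact ⟨hs'.1 (mem01 α (t1.2.1.sup ξ α ν hα).1 h1), h1⟩
        · intro α hα β hβ hlt
          have h1 : t1.1.r ξ α β := t1.2.1.tree ξ α β ν hα hβ hlt
          have h2 : β < ν := t1.2.1.lt ξ β ν hβ
          have h3 : t0.1.r ξ α β := rel01 ξ α β h1 h2
          have h4 := t0.2.1.sup ξ α β h3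
          exact ⟨(hs'.2 ξ α h4.1 β h4.2).2 h3, h2⟩
      · rw [bN' ξ hξ]
        exact br_P_rst s0.2.1 ξ ν
    · intro α hα
      filter_upwards [hN, (brn_P_rst s0.2.1 hν0).meas α hα] with ξ hξ h1
      rw [bN' ξ hξ]
      exact h1
    · intro ξ
      by_cases hξ : ξ ∈ N
      · rw [bN ξ hξ]
        ext α
        constructor
        · rintro ⟨⟨γ, hγ, h1 | rfl⟩, h2⟩
          · have h3 : γ < ν := h1.2
            have h4 : α < γ := s0.2.1.lt ξ α γ h1.1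
            have h5 : γ ∈ t1.1.a := (t1.2.1.sup ξ γ ν hγ).1
            have h6 : t0.1.r ξ α γ :=
              (hs'.2 ξ α (mem01 α h2 (h4.trans h3)) γ (mem01 γ h5 h3)).1 h1.1
            exact t1.2.1.trans ξ α γ ν (rel10 ξ α γ h6 h3) hγ
          · exact hγ
        · intro h1
          exact ⟨⟨α, h1, Or.inr rfl⟩, (t1.2.1.sup ξ α ν h1).1⟩
      · rw [bN' ξ hξ]
        ext α
        constructor
        · rintro ⟨h1, h2⟩
          have h3 : α < ν := s0.2.1.lt ξ α ν h1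
          have h4 : α ∈ t0.1.P ξ ν := (hs'.2 ξ α (mem01 α h2 h3) ν h.m0).1 h1
          rwa [h.P ξ hξ] at h4
        · intro h1
          have h2 : α ∈ t0.1.P ξ ν := by
            rw [h.P ξ hξ]
            exact h1
          have h3 : α ∈ t0.1.a := (t0.2.1.sup ξ α ν h2).1
          exact ⟨(hs'.2 ξ α h3 ν h.m0).2 h2, (t1.2.1.sup ξ α ν h1).1⟩
  obtain ⟨s1, h1, h2, h3, -, h5⟩ := gelE t1 hGH
  exact ⟨s1, h1, ⟨h5, hν0, h2, fun ξ hξ => (h3 ξ).trans (bN' ξ hξ)⟩⟩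

end Pool.MP_8fac41_lc.FR
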