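import Pool.Agent.Lib.MP_8fac41_lc.FR.P.Defs

/-!
# FRP-Baire: an abstract lemma

Wellorder `I` (`exists_wellOrder` or `WellOrderingRel`); define by wellfounded recursion `f i` = some `s` with `R s s0`, `s ∈ G i`, `R s (f j)` for
all `j < i` if there is one (`s0` otherwise). By strong induction there is one: `{f j : j < i} ∪ {s0}` (index type `Option {j // j < i}`)
is a chain of size `≤ c`, take a lower bound and then `hd`. In the end a lower bound of all `f i` and `s0`, and `ho`.
-/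

set_option autoImplicit false

universe u

namespace Pool.MP_8fac41_lc.FR

open Cardinal Set Filter

theorem baire {S : Type u} (R : S → S → Prop) (hr : ∀ s, R s s) (ht : ∀ a b c, R a b → R b c → R a c)
    {c : Cardinal.{u}} (hc : ℵ₀ ≤ c)
    (hlow : ∀ (I : Type u) (_ : Nonempty I) (f : I → S), #I ≤ c → (∀ i j, R (f i) (f j) ∨ R (f j) (f i)) →
      ∃ s, ∀ i, R s (f i))
    {I : Type u} (hI : #I ≤ c) (G : I → Set S) (ho : ∀ i a b, R b a → a ∈ G i → b ∈ G i)
    (hd : ∀ i a, ∃ b, R b a ∧ b ∈ G i) (s0 : S) : ∃ s, R s s0 ∧ ∀ i, s ∈ G i := by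
  classical
  obtain ⟨_, hwf⟩ := exists_wellFoundedLT I
  let F : (i : I) → ((j : I) → j < i → S) → S := fun i g =>
    if h : ∃ s, R s s0 ∧ s ∈ G i ∧ ∀ j (hj : j < i), R s (g j hj) then h.choose else s0
  let f : I → S := (wellFounded_lt (α := I)).fix F
  have hf : ∀ i, f i = F i fun j _ => f j := fun i => (wellFounded_lt (α := I)).fix_eq F i
  -- lower bounds of chains of the form s0, f j (j in J)
  have hch : ∀ J : Set I, (∀ i ∈ J, R (f i) s0 ∧ ∀ j, j < i → R (f i) (f j)) →
      ∃ a, R a s0 ∧ ∀ j ∈ J, R a (f j) := by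
    intro J hJ
    have hcard : #(Option J) ≤ c := by
      rw [mk_option]
      exact add_le_of_le hc ((mk_set_le J).trans hI) (one_le_aleph0.trans hc)
    obtain ⟨a, ha⟩ := hlow (Option J) ⟨none⟩ (fun o => o.elim s0 fun j => f j) hcard (by
      rintro (_ | ⟨j, hj⟩) (_ | ⟨k, hk⟩)
      · exact Or.inl (hr _)
      · exact Or.inr (hJ k hk).1
      · exact Or.inl (hJ j hj).1
      · rcases lt_trichotomy j k with hlt | heq | hgt
        · exact Or.inr ((hJ k hk).2 j hlt)
        · subst heq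
          exact Or.inl (hr _)
        · exact Or.inl ((hJ j hj).2 k hgt))
    exact ⟨a, ha none, fun j hj => ha (some ⟨j, hj⟩)⟩
  have key : ∀ i, R (f i) s0 ∧ f i ∈ G i ∧ ∀ j, j < i → R (f i) (f j) := by
    intro i
    induction i using (wellFounded_lt (α := I)).induction with
    | _ i ih =>
    have hex : ∃ s, R s s0 ∧ s ∈ G i ∧ ∀ j (_ : j < i), R s (f j) := by
      obtain ⟨a, ha0, ha⟩ := hch {j | j < i} fun j hj => ⟨(ih j hj).1, (ih j hj).2.2⟩
      obtain ⟨b, hba, hb⟩ := hd i a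
      exact ⟨b, ht _ _ _ hba ha0, hb, fun j hj => ht _ _ _ hba (ha j hj)⟩
    rw [hf i]
    simp only [F]
    rw [dif_pos hex]
    exact hex.choose_spec
  obtain ⟨a, ha0, ha⟩ := hch univ fun i _ => ⟨(key i).1, (key i).2.2⟩
  exact ⟨a, ha0, fun i => ho i (f i) a (ha i (mem_univ i)) (key i).2.1⟩

end Pool.MP_8fac41_lc.FR
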