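import Pool.Agent.Lib.MP_8fac41_lc.FR.P.Low
import Pool.Agent.Lib.MP_8fac41_lc.FR.P.Baire

/-!
# FRP-Dist: distributivity

`dist`: `baire` for `S = {q : E D X // q ≤ p}` (`Sle` between the first components; or `S = E D X` and the sets `{q | q ≤ p → q ∈ G i}`), chains: `low`,
density: `hd` and `push`. `dist_pair`: `baire` for the pairs `(s0, s1)` with `s0 ≤ t`, `s1 ≤ t`, `Sim N ν s0 s1`, with `Sle` in both coordinates;
chains: `low_pair`; density: `hd`, then `push` in both coordinates (`Sim ∅ ν` and `Sim.trans`).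
-/

set_option autoImplicit false

universe u

namespace Pool.MP_8fac41_lc.FR

open Cardinal Set Filter

variable {D X : Type u} [LinearOrder D] [WellFoundedLT D] [LinearOrder X] [WellFoundedLT X] [Sett D X]


variable {I : Type u}

theorem dist (hI : #I ≤ 2 ^ #D) (p : E D X) (G : I → Set (E D X))
    (ho : ∀ i a b, b ≤ a → a ∈ G i → b ∈ G i) (hd : ∀ i a, a ≤ p → ∃ b, b ≤ a ∧ b ∈ G i) :
    ∃ q : E D X, Sle q p ∧ ∀ i, q ∈ G i := by
  obtain ⟨s, hs, hs'⟩ := baire (S := {q : E D X // q ≤ p}) (fun a b => Sle a.1 b.1)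
    (fun s => Sle.refl s.1) (fun a b c h h' => Sle.trans h h') (aleph0_le_c D X)
    (fun J hJ f hJc hf => by
      obtain ⟨m, hm⟩ := low (p := fun i => (f i).1) hf hJc
      obtain ⟨j⟩ := hJ
      exact ⟨⟨m, (hm j).1.trans (f j).2⟩, hm⟩)
    hI (fun i => {s | s.1 ∈ G i}) (fun i a b h h' => ho i a.1 b.1 h.1 h')
    (fun i a => by
      obtain ⟨b, hb, hb'⟩ := hd i a.1 a.2
      obtain ⟨q', h1, h2, _⟩ := push hb
      exact ⟨⟨q', h2.1.trans a.2⟩, h2, ho i b q' h1 hb'⟩)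
    ⟨p, le_rfl⟩
  exact ⟨s.1, hs, hs'⟩

theorem dist_pair (hI : #I ≤ 2 ^ #D) {N : Set D} {ν : X} {t : E D X} (hν : ν ∈ t.1.a)
    (G : I → E D X → E D X → Prop)
    (ho : ∀ i a a' b b', b ≤ a → b' ≤ a' → G i a a' → G i b b')
    (hd : ∀ i a a', a ≤ t → a' ≤ t → Sim N ν a.1 a'.1 → ∃ b b', b ≤ a ∧ b' ≤ a' ∧ Sim N ν b.1 b'.1 ∧ G i b b') :
    ∃ s s' : E D X, s ≤ t ∧ s' ≤ t ∧ Sim N ν s.1 s'.1 ∧ ∀ i, G i s s' := by
  obtain ⟨s, hs, hs'⟩ := baire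
    (S := {x : E D X × E D X // x.1 ≤ t ∧ x.2 ≤ t ∧ Sim N ν x.1.1 x.2.1})
    (fun a b => Sle a.1.1 b.1.1 ∧ Sle a.1.2 b.1.2)
    (fun s => ⟨Sle.refl s.1.1, Sle.refl s.1.2⟩)
    (fun a b c h h' => ⟨Sle.trans h.1 h'.1, Sle.trans h.2 h'.2⟩) (aleph0_le_c D X)
    (fun J hJ f hJc hf => by
      obtain ⟨m, m', hm, hm', hs⟩ := low_pair (p := fun i => (f i).1.1) (q := fun i => (f i).1.2)
        hJc (N := N) (ν := ν) hf (fun i => (f i).2.2.2)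
      obtain ⟨j⟩ := hJ
      exact ⟨⟨(m, m'), (hm j).1.trans (f j).2.1, (hm' j).1.trans (f j).2.2.1, hs⟩,
        fun i => ⟨hm i, hm' i⟩⟩)
    hI (fun i => {s | G i s.1.1 s.1.2}) (fun i a b h h' => ho i _ _ _ _ h.1.1 h.2.1 h')
    (fun i a => by
      obtain ⟨b, b', hb, hb', hs, hG⟩ := hd i a.1.1 a.1.2 a.2.1 a.2.2.1 a.2.2.2
      obtain ⟨q, h1, h2, h3⟩ := push hb
      obtain ⟨q', h1', h2', h3'⟩ := push hb'
      have e1 := h3 ν hs.m0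
      have e2 := (h3' ν hs.m1).symm
      have e3 : Sim N ν q.1 q'.1 :=
        ((e1.mono (Set.empty_subset N)).trans' hs).trans' (e2.mono (Set.empty_subset N))
      exact ⟨⟨(q, q'), h2.1.trans a.2.1, h2'.1.trans a.2.2.1, e3⟩, ⟨h2, h2'⟩,
        ho i b b' q q' h1 h1' hG⟩)
    ⟨(t, t), le_rfl, le_rfl, Sim.refl hν⟩
  exact ⟨s.1.1, s.1.2, s.2.1, s.2.2.1, s.2.2.2, hs'⟩

end Pool.MP_8fac41_lc.FR
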