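import Pool.Agent.Lib.MP_8fac41_lc.FR.P.Rst

/-!
# FRP-Top: adding a new top

`addTop_TS`: size: `mk_insert_le`, `2 ^ #D` is infinite. Transitivity: `r ξ α β` and `β ∈ b ξ` give `α ∈ b ξ` (`Br.down`);
tree: `α, β ∈ b ξ`, `α < β` (`Br.chain`). The new element `m` is greater than all elements of `t.a ⊇ b ξ`.
-/

set_option autoImplicit false

universe u

namespace Pool.MP_8fac41_lc.FR

open Cardinal Set Filter

variable {D X : Type u} [LinearOrder D] [WellFoundedLT D] [LinearOrder X] [WellFoundedLT X] [Sett D X]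


theorem addTop_TS {t : Pre D X} (ht : TS t) {m : X} (hm : ∀ x ∈ t.a, x < m) {b : D → Set X} (hb : Brn t b) :
    TS (addTop t m b) where
  card := by
    show #(insert m t.a : Set X) ≤ 2 ^ #D
    refine mk_insert_le.trans ?_
    rw [← add_one_eq ((Sett.infD X : ℵ₀ < #D).le.trans (cantor _).le)]
    exact add_le_add ht.card le_rfl
  sup := by
    rintro ξ α β (h | ⟨rfl, h⟩)
    · obtain ⟨h1, h2⟩ := ht.sup ξ α β h
      exact ⟨Or.inr h1, Or.inr h2⟩
    · exact ⟨Or.inr ((hb.br ξ).sub h), Or.inl rfl⟩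
  lt := by
    rintro ξ α β (h | ⟨rfl, h⟩)
    · exact ht.lt ξ α β h
    · exact hm α ((hb.br ξ).sub h)
  trans := by
    rintro ξ α β γ (h | ⟨rfl, h⟩) (h' | ⟨rfl, h'⟩)
    · exact Or.inl (ht.trans ξ α β γ h h')
    · exact Or.inr ⟨rfl, (hb.br ξ).down α β h h'⟩
    · exact absurd (hm _ (ht.sup ξ _ _ h').1) (lt_irrefl _)
    · exact absurd (hm _ ((hb.br ξ).sub h')) (lt_irrefl _)
  tree := by
    rintro ξ α β γ (h | ⟨rfl, h⟩) (h' | ⟨h1, h'⟩) hαβ
    · exact Or.inl (ht.tree ξ α β γ h h' hαβ)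
    · subst h1
      exact absurd (hm _ (ht.sup ξ _ _ h).2) (lt_irrefl _)
    · exact absurd (hm _ (ht.sup ξ _ _ h').2) (lt_irrefl _)
    · exact Or.inl ((hb.br ξ).chain α h β h' hαβ)
  meas := by
    rintro α (hα | hα) β (hβ | hβ) hαβ
    · exact absurd (hα.trans hβ.symm) hαβ.ne
    · rw [hα] at hαβ
      exact absurd hαβ (hm β hβ).not_gt
    · filter_upwards [hb.meas α hα] with ξ hξ
      exact Or.inr ⟨hβ, hξ⟩
    · filter_upwards [ht.meas α hα β hβ hαβ] with ξ hξ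
      exact Or.inl hξ

theorem addTop_le {t : Pre D X} {m : X} (hm : ∀ x ∈ t.a, x < m) (b : D → Set X) :
    addTop t m b ≤ t := by
  refine ⟨fun x hx => Or.inr hx, fun ξ α hα β hβ => ⟨?_, fun h => Or.inl h⟩⟩
  rintro (h | ⟨h, _⟩)
  · exact h
  · exact absurd h (hm β hβ).ne

theorem rst_addTop {t : Pre D X} (ht : TS t) {m : X} (hm : ∀ x ∈ t.a, x < m) (b : D → Set X) :
    rst (addTop t m b) m = t := by
  refine Pre.ext ?_ ?_
  · ext x
    constructor
    · rintro ⟨h1 | h1, h2⟩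
      · exact absurd h1 (ne_of_lt h2)
      · exact h1
    · intro h
      exact ⟨Or.inr h, hm x h⟩
  · funext ξ α β
    apply propext
    constructor
    · rintro ⟨h1 | ⟨h1, _⟩, h2⟩
      · exact h1
      · exact absurd h1 h2.ne
    · intro h
      exact ⟨Or.inl h, hm β (ht.sup ξ α β h).2⟩

theorem rst_addTop' {t : Pre D X} {m ν : X} (hν : ν ≤ m) (b : D → Set X) :
    rst (addTop t m b) ν = rst t ν := by
  refine Pre.ext ?_ ?_
  · ext x
    constructor
    · rintro ⟨h1 | h1, h2⟩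
      · exact absurd h1 (ne_of_lt (lt_of_lt_of_le h2 hν))
      · exact ⟨h1, h2⟩
    · rintro ⟨h1, h2⟩
      exact ⟨Or.inr h1, h2⟩
  · funext ξ α β
    apply propext
    constructor
    · rintro ⟨h1 | ⟨h1, _⟩, h2⟩
      · exact ⟨h1, h2⟩
      · exact absurd h1 (h2.trans_le hν).ne
    · rintro ⟨h1, h2⟩
      exact ⟨Or.inl h1, h2⟩

theorem addTop_P_top {t : Pre D X} (ht : TS t) {m : X} (hm : ∀ x ∈ t.a, x < m) (b : D → Set X) (ξ : D) :
    (addTop t m b).P ξ m = b ξ := by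
  ext α
  constructor
  · rintro (h | ⟨_, h⟩)
    · exact absurd (hm m (ht.sup ξ α m h).2) (lt_irrefl _)
    · exact h
  · intro h
    exact Or.inr ⟨rfl, h⟩

theorem addTop_P {t : Pre D X} {m β : X} (h : β ≠ m) (b : D → Set X) (ξ : D) :
    (addTop t m b).P ξ β = t.P ξ β := by
  ext α
  constructor
  · rintro (h' | ⟨h', _⟩)
    · exact h'
    · exact absurd h' h
  · intro h'
    exact Or.inl h'

/-- the condition -/
def addE (t : Pre D X) (ht : TS t) (m : X) (hm : ∀ x ∈ t.a, x < m) (b : D → Set X) (hb : Brn t b) : E D X :=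
  ⟨addTop t m b, addTop_TS ht hm hb, m, Or.inl rfl, fun x hx => by
    rcases hx with rfl | hx
    · exact le_rfl
    · exact (hm x hx).le⟩

theorem top_addE (t : Pre D X) (ht : TS t) (m : X) (hm : ∀ x ∈ t.a, x < m) (b : D → Set X) (hb : Brn t b) :
    top (addE t ht m hm b hb) = m := by
  refine top_eq _ (Or.inl rfl) fun x hx => ?_
  rcases hx with rfl | hx
  · exact le_rfl
  · exact (hm x hx).le

/-- an extension of `q` which has the top `m` -/
theorem exists_top (q : E D X) {m : X} (hm : top q < m) : ∃ q' : E D X, q' ≤ q ∧ top q' = m ∧ Sle q' q := by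
  have hm' : ∀ x ∈ q.1.a, x < m := fun x hx => (le_top' q hx).trans_lt hm
  have hb : Brn q.1 (fun ξ => q.1.Q ξ (top q)) := brn_Q q.2.1 (top_mem q) fun x hx => le_top' q hx
  have h1 : addE q.1 q.2.1 m hm' _ hb ≤ q := addTop_le hm' _
  refine ⟨addE q.1 q.2.1 m hm' _ hb, h1, top_addE _ _ _ _ _ _, h1, fun ξ => ?_⟩
  rw [top_addE]
  exact Or.inl (Or.inr ⟨rfl, Or.inr rfl⟩)

theorem nonempty_E : Nonempty (E D X) := by
  have h0 : #X ≠ 0 := by
    intro h
    have h1 := (Sett.DX : #D < #X)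
    rw [h] at h1
    exact not_lt_zero' h1
  obtain ⟨x⟩ := mk_ne_zero_iff.1 h0
  refine ⟨⟨⟨{x}, fun _ _ _ => False⟩, ⟨?_, ?_, ?_, ?_, ?_, ?_⟩, x, rfl, fun y hy => le_of_eq hy⟩⟩
  · show #({x} : Set X) ≤ 2 ^ #D
    rw [mk_singleton]
    exact one_lt_aleph0.le.trans ((Sett.infD X : ℵ₀ < #D).le.trans (cantor _).le)
  · intro ξ α β h
    exact h.elim
  · intro ξ α β h
    exact h.elim
  · intro ξ α β γ h
    exact h.elim
  · intro ξ α β γ h
    exact h.elim
  · rintro α hα β hβ hαβ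
    have h1 : α = x := hα
    have h2 : β = x := hβ
    rw [h1, h2] at hαβ
    exact absurd hαβ (lt_irrefl _)

end Pool.MP_8fac41_lc.FR
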