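import Pool.Agent.Lib.MP_8fac41_lc.FR.P.Defs

/-!
# FRP-Basic: elementary facts
-/

set_option autoImplicit false

universe u

namespace Pool.MP_8fac41_lc.FR

open Cardinal Set Filter

variable {D X : Type u} [LinearOrder D] [WellFoundedLT D] [LinearOrder X] [WellFoundedLT X] [Sett D X]

theorem aleph0_le_c (D X : Type u) [LinearOrder D] [WellFoundedLT D] [LinearOrder X] [WellFoundedLT X] [Sett D X] :
    ℵ₀ ≤ (2 : Cardinal.{u}) ^ #D :=
  (Sett.infD (D := D) (X := X)).le.trans (Cardinal.cantor _).le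

variable (D X) in
theorem c_lt_X : (2 : Cardinal.{u}) ^ #D < #X := (Sett.stX (D := D) (X := X)).two_power_lt Sett.DX

theorem bdd (D : Type u) {X : Type u} [LinearOrder D] [WellFoundedLT D] [LinearOrder X] [WellFoundedLT X] [Sett D X]
    {S : Set X} (h : #S < #X) : ∃ m : X, ∀ x ∈ S, x < m := by
  by_contra hcon
  push Not at hcon
  have h1 : (⋃ x ∈ S, Iic x) = Set.univ := by
    refine eq_univ_of_forall fun m => ?_
    obtain ⟨x, hx, hm⟩ := hcon m
    exact mem_biUnion hx hm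
  have hinf : ℵ₀ < #X := (Sett.infD (D := D) (X := X)).trans Sett.DX
  have h2 : ∀ x ∈ S, #(Iic x) < #X := by
    intro x _
    have h2 : #(Iic x) ≤ #(Iio x) + 1 := by
      rw [← Iio_insert]
      exact mk_insert_le
    exact h2.trans_lt (add_lt_of_lt hinf.le (Sett.smX (D := D) x) (one_lt_aleph0.trans hinf))
  have h3 := (Cardinal.card_biUnion_lt_iff_forall_of_isRegular (Sett.regX (D := D) (X := X)) h).mpr h2
  rw [h1, mk_univ] at h3
  exact lt_irrefl _ h3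

variable (D) in
theorem bdd_c {S : Set X} (h : #S ≤ 2 ^ #D) : ∃ m : X, ∀ x ∈ S, x < m := bdd D (h.trans_lt (c_lt_X D X))

theorem ts_bdd {t : Pre D X} (h : TS t) : ∃ m : X, ∀ x ∈ t.a, x < m := bdd_c D h.card

theorem Sim.symm {N : Set D} {ν : X} {s t : Pre D X} (h : Sim N ν s t) : Sim N ν t s :=
  ⟨h.m1, h.m0, h.rst.symm, fun ξ hξ => (h.P ξ hξ).symm⟩

theorem Sim.trans {N M : Set D} {ν : X} {s t u : Pre D X} (h : Sim N ν s t) (h' : Sim M ν t u) : Sim (N ∪ M) ν s u :=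
  ⟨h.m0, h'.m1, h.rst.trans h'.rst, fun ξ hξ =>
    (h.P ξ fun h0 => hξ (Or.inl h0)).trans (h'.P ξ fun h0 => hξ (Or.inr h0))⟩

theorem Sim.trans' {N : Set D} {ν : X} {s t u : Pre D X} (h : Sim N ν s t) (h' : Sim N ν t u) : Sim N ν s u :=
  ⟨h.m0, h'.m1, h.rst.trans h'.rst, fun ξ hξ => (h.P ξ hξ).trans (h'.P ξ hξ)⟩

theorem Sim.mono {N M : Set D} {ν : X} {s t : Pre D X} (h : Sim N ν s t) (h' : N ⊆ M) : Sim M ν s t :=
  ⟨h.m0, h.m1, h.rst, fun ξ hξ => h.P ξ fun h0 => hξ (h' h0)⟩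

theorem Sim.refl {N : Set D} {ν : X} {t : Pre D X} (h : ν ∈ t.a) : Sim N ν t t := ⟨h, h, rfl, fun _ _ => rfl⟩

/-- the restriction of a smaller condition -/
theorem Sim.le_rst {N : Set D} {ν : X} {s t : Pre D X} (h : Sim N ν s t) {q : Pre D X} (hq : FR.rst s ν = q) :
    FR.rst t ν = q := h.rst.symm.trans hq

end Pool.MP_8fac41_lc.FR
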