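import Mathlib

/-!
# FR/P: the setting and the poset

`D` is a wellordered type of order type `δ`, `X` one of order type `κ`. `U0`, `U1` are normal ultrafilters on `D`,
`W` is a normal ultrafilter on `X`. Conditions are small systems of tree-like orders `<_ξ` (`ξ ∈ D`) on subsets of
`X`, coherent modulo `U1`.
-/

set_option autoImplicit false

universe u

namespace Pool.MP_8fac41_lc.FR

open Cardinal Set Filter

/-- normal ultrafilters -/
structure Nrm {Y : Type u} [LinearOrder Y] (U : Ultrafilter Y) : Prop where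
  tail : ∀ x : Y, ∀ᶠ y in (U : Filter Y), x < y
  normal : ∀ P : Y → Y → Prop, (∀ i, ∀ᶠ y in (U : Filter Y), P i y) →
    ∀ᶠ y in (U : Filter Y), ∀ i, i < y → P i y
  compl : ∀ (ι : Type u) (P : ι → Y → Prop), #ι < #Y → (∀ i, ∀ᶠ y in (U : Filter Y), P i y) →
    ∀ᶠ y in (U : Filter Y), ∀ i, P i y

/-- the Mitchell order: `U` belongs to the ultrapower by `U'` -/
def Mit {D : Type u} [LinearOrder D] (U U' : Ultrafilter D) : Prop :=
  ∃ w : D → Set (Set D), ∀ A : Set D, A ∈ U ↔ {ξ | A ∩ Iio ξ ∈ w ξ} ∈ U'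

/-- The setting. -/
class Sett (D X : Type u) [LinearOrder D] [WellFoundedLT D] [LinearOrder X] [WellFoundedLT X] where
  /-- the first normal ultrafilter on `δ` -/
  U0 : Ultrafilter D
  /-- the second normal ultrafilter on `δ` -/
  U1 : Ultrafilter D
  /-- the normal ultrafilter on `κ` -/
  W : Ultrafilter X
  n0 : Nrm U0
  n1 : Nrm U1
  nW : Nrm W
  ne : U0 ≠ U1
  mit : ¬ Mit U1 U0
  infD : ℵ₀ < #D
  DX : #D < #X
  regD : (#D).IsRegular
  stD : (#D).IsStrongLimit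
  regX : (#X).IsRegular
  stX : (#X).IsStrongLimit
  smD : ∀ x : D, #(Iio x) < #D
  smX : ∀ x : X, #(Iio x) < #X

section filters

variable (D X : Type u) [LinearOrder D] [WellFoundedLT D] [LinearOrder X] [WellFoundedLT X] [Sett D X]

/-- the filter `U0` -/
abbrev F0 : Filter D := ((Sett.U0 X : Ultrafilter D) : Filter D)
/-- the filter `U1` -/
abbrev F1 : Filter D := ((Sett.U1 X : Ultrafilter D) : Filter D)
/-- the filter `W` -/
abbrev FW : Filter X := ((Sett.W D : Ultrafilter X) : Filter X)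

end filters

/-- a system of relations -/
@[ext]
structure Pre (D X : Type u) where
  /-- the support -/
  a : Set X
  /-- the relations -/
  r : D → X → X → Prop

/-- `q` extends `p` -/
instance {D X : Type u} : Preorder (Pre D X) where
  le q p := p.a ⊆ q.a ∧ ∀ ξ, ∀ α ∈ p.a, ∀ β ∈ p.a, (q.r ξ α β ↔ p.r ξ α β)
  le_refl p := ⟨subset_rfl, fun _ _ _ _ _ => Iff.rfl⟩
  le_trans q p s h h' := ⟨h'.1.trans h.1, fun ξ α hα β hβ =>
    (h.2 ξ α (h'.1 hα) β (h'.1 hβ)).trans (h'.2 ξ α hα β hβ)⟩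

theorem le_iff {D X : Type u} {q p : Pre D X} :
    q ≤ p ↔ p.a ⊆ q.a ∧ ∀ ξ, ∀ α ∈ p.a, ∀ β ∈ p.a, (q.r ξ α β ↔ p.r ξ α β) := Iff.rfl

variable {D X : Type u} [LinearOrder D] [WellFoundedLT D] [LinearOrder X] [WellFoundedLT X] [Sett D X]

/-- tree systems -/
structure TS (t : Pre D X) : Prop where
  card : #t.a ≤ 2 ^ #D
  sup : ∀ ξ α β, t.r ξ α β → α ∈ t.a ∧ β ∈ t.a
  lt : ∀ ξ α β, t.r ξ α β → α < β
  trans : ∀ ξ α β γ, t.r ξ α β → t.r ξ β γ → t.r ξ α γ
  tree : ∀ ξ α β γ, t.r ξ α γ → t.r ξ β γ → α < β → t.r ξ α β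
  meas : ∀ α ∈ t.a, ∀ β ∈ t.a, α < β → ∀ᶠ ξ in F1 D X, t.r ξ α β

/-- the predecessors of `β` -/
def Pre.P {D X : Type u} (t : Pre D X) (ξ : D) (β : X) : Set X := {α | t.r ξ α β}

/-- the predecessors of `β` and `β` -/
def Pre.Q {D X : Type u} (t : Pre D X) (ξ : D) (β : X) : Set X := {α | t.r ξ α β ∨ α = β}

/-- the restriction to the ordinals less than `ν` -/
def rst (t : Pre D X) (ν : X) : Pre D X where
  a := t.a ∩ Iio ν
  r := fun ξ α β => t.r ξ α β ∧ β < ν

/-- `s` is a downward closed chain of `<_ξ` -/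
structure Br {D X : Type u} [LT X] (t : Pre D X) (ξ : D) (s : Set X) : Prop where
  sub : s ⊆ t.a
  down : ∀ α β, t.r ξ α β → β ∈ s → α ∈ s
  chain : ∀ α ∈ s, ∀ β ∈ s, α < β → t.r ξ α β

/-- `b` is a family of downward closed chains of `t` which almost contains every element -/
structure Brn (t : Pre D X) (b : D → Set X) : Prop where
  br : ∀ ξ, Br t ξ (b ξ)
  meas : ∀ α ∈ t.a, ∀ᶠ ξ in F1 D X, α ∈ b ξ

/-- the downward closure -/
def dc {D X : Type u} (t : Pre D X) (ξ : D) (s : Set X) : Set X := {α | ∃ γ ∈ s, t.r ξ α γ ∨ α = γ}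

/-- the new top `m` with the predecessors `b ξ` -/
def addTop (t : Pre D X) (m : X) (b : D → Set X) : Pre D X where
  a := insert m t.a
  r := fun ξ α β => t.r ξ α β ∨ (β = m ∧ α ∈ b ξ)

variable (D X)

/-- the poset -/
abbrev E : Type u := {p : Pre D X // TS p ∧ ∃ m ∈ p.a, ∀ x ∈ p.a, x ≤ m}

variable {D X}

/-- the top of a condition -/
noncomputable def top (p : E D X) : X := p.2.2.choose

theorem top_mem (p : E D X) : top p ∈ p.1.a := p.2.2.choose_spec.1

theorem le_top' (p : E D X) {x : X} (h : x ∈ p.1.a) : x ≤ top p := p.2.2.choose_spec.2 x h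

theorem top_eq (p : E D X) {m : X} (h : m ∈ p.1.a) (h' : ∀ x ∈ p.1.a, x ≤ m) : top p = m :=
  le_antisymm (h' _ (top_mem p)) (le_top' p h)

/-- the strong order -/
def Sle (q p : E D X) : Prop := q ≤ p ∧ ∀ ξ, top p ∈ q.1.Q ξ (top q)

/-- `t0` and `t1` agree below `ν`, and up to `N` they have the same predecessors of `ν` -/
structure Sim (N : Set D) (ν : X) (t0 t1 : Pre D X) : Prop where
  m0 : ν ∈ t0.a
  m1 : ν ∈ t1.a
  rst : rst t0 ν = rst t1 ν
  P : ∀ ξ, ξ ∉ N → t0.P ξ ν = t1.P ξ ν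

/-- the conditions below `ν` -/
def Ebd (ν : X) (p : E D X) : Prop := top p < ν

/-- the reduct: `τ` takes the place of `ν` -/
def red (t : Pre D X) (ν τ : X) : Pre D X := addTop (rst t ν) τ (fun ξ => t.P ξ ν)

end Pool.MP_8fac41_lc.FR
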