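import Pool.Agent.Lib.MP_8fac41_lc.FR.P.Top

/-!
# FRP-Gel: the relation of the general extension lemma

`gel t r ν b` has the support `r.a ∪ t.a`; for `β < ν` the predecessors of `β` are those in `r`; for `β ≥ ν` the predecessors
`≥ ν` are those in `t`, and the predecessors `< ν` are `b ξ` if `β = ν` or `ν <_ξ β`, and the downward closure in `r` of the
old ones otherwise (`up`). Proofs: three cases (everything below `ν`; only the largest element `≥ ν`; at least two elements `≥ ν`).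
* Agreement with `t` (`gel_old`): `β > ν`, `ν <_ξ β`, `α < ν` old: `α <_ξ β` iff `α <_ξ ν` (`trans`, `tree`), and `b ξ ∩ t.a = t.P ξ ν`.
  `β > ν`, not `ν <_ξ β`: `α` in the downward closure: `α ≤ γ <_ξ β` with `γ < ν` old, `r` and `t` agree on old elements `< ν`.
* `up_mono`: if `β <_ξ γ` in `t`, `ν ≤ β`, then `up β = up γ`: if `β = ν` then `ν <_ξ γ`; if `ν <_ξ β` then `ν <_ξ γ`; if not `ν <_ξ β`
  (`β > ν`) then not `ν <_ξ γ` by `tree`, and the old predecessors `< ν` of `β` and `γ` are the same by `tree`, `trans`.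
* `up_br`: `up β` is a downward closed chain of `r` (`br_dc`, the old predecessors of `β` form a chain).
-/

set_option autoImplicit false

universe u

namespace Pool.MP_8fac41_lc.FR

open Cardinal Set Filter

variable {D X : Type u} [LinearOrder D] [WellFoundedLT D] [LinearOrder X] [WellFoundedLT X] [Sett D X]


/-- the hypotheses -/
structure GH (t r : Pre D X) (ν : X) (b : D → Set X) : Prop where
  ht : TS t
  hν : ν ∈ t.a
  hr : TS r
  lt : ∀ x ∈ r.a, x < ν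
  le : r ≤ rst t ν
  hb : Brn r b
  old : ∀ ξ, b ξ ∩ t.a = t.P ξ ν

open Classical in
/-- the predecessors `< ν` of `β ≥ ν` -/
noncomputable def up (t r : Pre D X) (ν : X) (b : D → Set X) (ξ : D) (β : X) : Set X :=
  if β = ν ∨ t.r ξ ν β then b ξ else dc r ξ {γ | t.r ξ γ β ∧ γ < ν}

/-- the general extension -/
noncomputable def gel (t r : Pre D X) (ν : X) (b : D → Set X) : Pre D X where
  a := r.a ∪ t.a
  r := fun ξ α β => (β < ν ∧ r.r ξ α β) ∨ (ν ≤ β ∧ ν ≤ α ∧ t.r ξ α β) ∨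
    (ν ≤ β ∧ α < ν ∧ β ∈ t.a ∧ α ∈ up t r ν b ξ β)

private theorem Gel_mem {t r : Pre D X} {ν : X} {b : D → Set X} (h : GH t r ν b) {α : X}
    (hα : α ∈ t.a) (hα' : α < ν) : α ∈ r.a := h.le.1 ⟨hα, hα'⟩

private theorem Gel_agree {t r : Pre D X} {ν : X} {b : D → Set X} (h : GH t r ν b) {ξ : D} {α β : X}
    (hα : α ∈ t.a) (hα' : α < ν) (hβ : β ∈ t.a) (hβ' : β < ν) : r.r ξ α β ↔ t.r ξ α β := by
  have h1 := h.le.2 ξ α ⟨hα, hα'⟩ β ⟨hβ, hβ'⟩
  rw [h1]
  exact ⟨fun h2 => h2.1, fun h2 => ⟨h2, hβ'⟩⟩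

theorem up_mono {t r : Pre D X} {ν : X} {b : D → Set X} (h : GH t r ν b) {ξ : D} {β γ : X} (hβ : ν ≤ β)
    (hβγ : t.r ξ β γ) : up t r ν b ξ β = up t r ν b ξ γ := by
  have hlt := h.ht.lt ξ β γ hβγ
  unfold up
  by_cases hc : β = ν ∨ t.r ξ ν β
  · have hc' : γ = ν ∨ t.r ξ ν γ := by
      right
      rcases hc with rfl | hc
      · exact hβγ
      · exact h.ht.trans ξ ν β γ hc hβγ
    rw [if_pos hc, if_pos hc']
  · have hc' : ¬ (γ = ν ∨ t.r ξ ν γ) := by
      rintro (rfl | h1)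
      · exact absurd hlt (not_lt.mpr hβ)
      · apply hc
        rcases hβ.lt_or_eq with h2 | h2
        · exact Or.inr (h.ht.tree ξ ν β γ h1 hβγ h2)
        · exact Or.inl h2.symm
    rw [if_neg hc, if_neg hc']
    congr 1
    ext δ
    constructor
    · rintro ⟨h1, h2⟩
      exact ⟨h.ht.trans ξ δ β γ h1 hβγ, h2⟩
    · rintro ⟨h1, h2⟩
      exact ⟨h.ht.tree ξ δ β γ h1 hβγ (lt_of_lt_of_le h2 hβ), h2⟩

theorem up_br {t r : Pre D X} {ν : X} {b : D → Set X} (h : GH t r ν b) (ξ : D) (β : X) :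
    Br r ξ (up t r ν b ξ β) := by
  unfold up
  split_ifs with hc
  · exact h.hb.br ξ
  · refine br_dc h.hr ?_ ?_
    · rintro δ ⟨h1, h2⟩
      exact Gel_mem h (h.ht.sup ξ δ β h1).1 h2
    · rintro α ⟨h1, h2⟩ δ ⟨h3, h4⟩ hlt
      rw [Gel_agree h (h.ht.sup ξ α β h1).1 h2 (h.ht.sup ξ δ β h3).1 h4]
      exact h.ht.tree ξ α δ β h1 h3 hlt

theorem gel_old {t r : Pre D X} {ν : X} {b : D → Set X} (h : GH t r ν b) {ξ : D} {α β : X} (hα : α ∈ t.a)
    (hβ : β ∈ t.a) : (gel t r ν b).r ξ α β ↔ t.r ξ α β := by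
  change ((β < ν ∧ r.r ξ α β) ∨ (ν ≤ β ∧ ν ≤ α ∧ t.r ξ α β) ∨
    (ν ≤ β ∧ α < ν ∧ β ∈ t.a ∧ α ∈ up t r ν b ξ β)) ↔ t.r ξ α β
  rcases lt_or_ge β ν with hβν | hβν
  · have e1 : ((β < ν ∧ r.r ξ α β) ∨ (ν ≤ β ∧ ν ≤ α ∧ t.r ξ α β) ∨
        (ν ≤ β ∧ α < ν ∧ β ∈ t.a ∧ α ∈ up t r ν b ξ β)) ↔ r.r ξ α β := by
      constructor
      · rintro (h1 | h1 | h1)
        · exact h1.2
        · exact absurd hβν (not_lt.mpr h1.1)
        · exact absurd hβν (not_lt.mpr h1.1)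
      · exact fun h1 => Or.inl ⟨hβν, h1⟩
    rw [e1]
    rcases lt_or_ge α ν with hαν | hαν
    · exact Gel_agree h hα hαν hβ hβν
    · constructor
      · intro h1
        exact absurd (h.hr.lt ξ α β h1) (not_lt.mpr (hβν.le.trans hαν))
      · intro h1
        exact absurd (h.ht.lt ξ α β h1) (not_lt.mpr (hβν.le.trans hαν))
  · rcases lt_or_ge α ν with hαν | hαν
    · have e1 : ((β < ν ∧ r.r ξ α β) ∨ (ν ≤ β ∧ ν ≤ α ∧ t.r ξ α β) ∨
          (ν ≤ β ∧ α < ν ∧ β ∈ t.a ∧ α ∈ up t r ν b ξ β)) ↔ α ∈ up t r ν b ξ β := by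
        constructor
        · rintro (h1 | h1 | h1)
          · exact absurd h1.1 (not_lt.mpr hβν)
          · exact absurd hαν (not_lt.mpr h1.2.1)
          · exact h1.2.2.2
        · exact fun h1 => Or.inr (Or.inr ⟨hβν, hαν, hβ, h1⟩)
      rw [e1]
      unfold up
      split_ifs with hc
      · have e2 : α ∈ b ξ ↔ t.r ξ α ν := by
          have h1 : α ∈ b ξ ∩ t.a ↔ α ∈ t.P ξ ν := by rw [h.old ξ]
          constructor
          · exact fun h2 => h1.mp ⟨h2, hα⟩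
          · exact fun h2 => (h1.mpr h2).1
        rw [e2]
        rcases hc with rfl | hc
        · exact Iff.rfl
        · exact ⟨fun h1 => h.ht.trans ξ α ν β h1 hc, fun h1 => h.ht.tree ξ α ν β h1 hc hαν⟩
      · constructor
        · rintro ⟨δ, ⟨h1, h2⟩, h3⟩
          rcases h3 with h3 | rfl
          · have h4 := (Gel_agree h hα hαν (h.ht.sup ξ δ β h1).1 h2).mp h3
            exact h.ht.trans ξ α δ β h4 h1
          · exact h1
        · exact fun h1 => ⟨α, ⟨h1, hαν⟩, Or.inr rfl⟩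
    · constructor
      · rintro (h1 | h1 | h1)
        · exact absurd h1.1 (not_lt.mpr hβν)
        · exact h1.2.2
        · exact absurd h1.2.1 (not_lt.mpr hαν)
      · exact fun h1 => Or.inr (Or.inl ⟨hβν, hαν, h1⟩)

end Pool.MP_8fac41_lc.FR
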