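import Pool.Agent.Lib.MP_8fac41_lc.FR.P.GelTS

/-!
# FRP-GelE: the general extension lemma for conditions

Use `gel`: `le` by `gel_old`; `rst` and `P` from the definition (`up ν = b`). The top is the top of `p` (all elements of `r.a` are
less than `ν ∈ p.a`).
-/

set_option autoImplicit false

universe u

namespace Pool.MP_8fac41_lc.FR

open Cardinal Set Filter

variable {D X : Type u} [LinearOrder D] [WellFoundedLT D] [LinearOrder X] [WellFoundedLT X] [Sett D X]


theorem gelE (p : E D X) {r : Pre D X} {ν : X} {b : D → Set X} (h : GH p.1 r ν b) :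
    ∃ p' : E D X, p' ≤ p ∧ rst p'.1 ν = r ∧ (∀ ξ, p'.1.P ξ ν = b ξ) ∧ top p' = top p ∧ ν ∈ p'.1.a := by
  have hle : ∀ x ∈ r.a ∪ p.1.a, x ≤ top p := by
    rintro x (hx | hx)
    · exact (h.lt x hx).le.trans (le_top' p h.hν)
    · exact le_top' p hx
  have hmem : top p ∈ r.a ∪ p.1.a := Or.inr (top_mem p)
  let p' : E D X := ⟨gel p.1 r ν b, gel_TS h, top p, hmem, hle⟩
  have hsub : p.1.a ∩ Iio ν ⊆ r.a := h.le.1
  refine ⟨p', ⟨subset_union_right, fun ξ α hα β hβ => gel_old h hα hβ⟩, ?_, fun ξ => ?_,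
    top_eq p' hmem hle, Or.inr h.hν⟩
  · refine Pre.ext ?_ ?_
    · ext x
      constructor
      · rintro ⟨hx | hx, hx'⟩
        · exact hx
        · exact hsub ⟨hx, hx'⟩
      · intro hx
        exact ⟨Or.inl hx, h.lt x hx⟩
    · funext ξ α β
      apply propext
      constructor
      · rintro ⟨h1 | h1 | h1, h2⟩
        · exact h1.2
        · exact absurd h2 (not_lt.2 h1.1)
        · exact absurd h2 (not_lt.2 h1.1)
      · intro h1
        have h2 : β < ν := h.lt β (h.hr.sup ξ α β h1).2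
        exact ⟨Or.inl ⟨h2, h1⟩, h2⟩
  · ext α
    have hup : up p.1 r ν b ξ ν = b ξ := if_pos (Or.inl rfl)
    constructor
    · rintro (h1 | h1 | h1)
      · exact absurd h1.1 (lt_irrefl _)
      · exact absurd (h.ht.lt ξ α ν h1.2.2) (not_lt.2 h1.2.1)
      · rw [← hup]
        exact h1.2.2.2
    · intro h1
      refine Or.inr (Or.inr ⟨le_rfl, h.lt α ((h.hb.br ξ).sub h1), h.hν, ?_⟩)
      rw [hup]
      exact h1

end Pool.MP_8fac41_lc.FR
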