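import Pool.Agent.Lib.MP_8fac41_lc.FR.P.Gel

/-!
# FRP-GelTS: the general extension is a tree system

`card`: `mk_union_le`. `trans`, `tree`: cases as in `Gel.lean`, with `up_mono`, `up_br`. `meas`: `α, β < ν`: `TS r`; `α, β ≥ ν`: `TS t`;
`α < ν`, `β = ν`: `Brn.meas`; `α < ν < β`: on the intersection of `{ξ : ν <_ξ β}` (`t.meas`) and `{ξ : α ∈ b ξ}` we have
`up β = b ξ`.
-/

set_option autoImplicit false

universe u

namespace Pool.MP_8fac41_lc.FR

open Cardinal Set Filter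

variable {D X : Type u} [LinearOrder D] [WellFoundedLT D] [LinearOrder X] [WellFoundedLT X] [Sett D X]


theorem gel_TS {t r : Pre D X} {ν : X} {b : D → Set X} (h : GH t r ν b) : TS (gel t r ν b) := by
  have hmem : ∀ α, α ∈ r.a ∪ t.a → α < ν → α ∈ r.a := fun α hα hαν => by
    rcases hα with h1 | h1
    · exact h1
    · exact h.le.1 ⟨h1, hαν⟩
  have hmem' : ∀ α, α ∈ r.a ∪ t.a → ν ≤ α → α ∈ t.a := fun α hα hαν => by
    rcases hα with h1 | h1
    · exact absurd (h.lt α h1) (not_lt.mpr hαν)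
    · exact h1
  have hlt : ∀ ξ α β, (gel t r ν b).r ξ α β → α < β := by
    rintro ξ α β (h1 | h1 | h1)
    · exact h.hr.lt ξ α β h1.2
    · exact h.ht.lt ξ α β h1.2.2
    · exact lt_of_lt_of_le h1.2.1 h1.1
  refine ⟨?_, ?_, hlt, ?_, ?_, ?_⟩
  · have h1 : ℵ₀ ≤ (2 : Cardinal.{u}) ^ #D :=
      (Sett.infD (D := D) (X := X)).le.trans (cantor _).le
    calc #((gel t r ν b).a) = #(r.a ∪ t.a : Set X) := rfl
      _ ≤ #r.a + #t.a := mk_union_le _ _
      _ ≤ 2 ^ #D + 2 ^ #D := add_le_add h.hr.card h.ht.card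
      _ = 2 ^ #D := add_eq_self h1
  · rintro ξ α β (h1 | h1 | h1)
    · exact ⟨Or.inl (h.hr.sup ξ α β h1.2).1, Or.inl (h.hr.sup ξ α β h1.2).2⟩
    · exact ⟨Or.inr (h.ht.sup ξ α β h1.2.2).1, Or.inr (h.ht.sup ξ α β h1.2.2).2⟩
    · exact ⟨Or.inl ((up_br h ξ β).sub h1.2.2.2), Or.inr h1.2.2.1⟩
  · rintro ξ α β γ h1 (h2 | h2 | h2)
    · have hβ : β < ν := (h.hr.lt ξ β γ h2.2).trans h2.1
      rcases h1 with h1 | h1 | h1
      · exact Or.inl ⟨h2.1, h.hr.trans ξ α β γ h1.2 h2.2⟩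
      · exact absurd hβ (not_lt.mpr h1.1)
      · exact absurd hβ (not_lt.mpr h1.1)
    · rcases h1 with h1 | h1 | h1
      · exact absurd h1.1 (not_lt.mpr h2.2.1)
      · exact Or.inr (Or.inl ⟨h2.1, h1.2.1, h.ht.trans ξ α β γ h1.2.2 h2.2.2⟩)
      · refine Or.inr (Or.inr ⟨h2.1, h1.2.1, (h.ht.sup ξ β γ h2.2.2).2, ?_⟩)
        rw [← up_mono h h2.2.1 h2.2.2]
        exact h1.2.2.2
    · rcases h1 with h1 | h1 | h1
      · exact Or.inr (Or.inr ⟨h2.1, (h.hr.lt ξ α β h1.2).trans h1.1, h2.2.2.1,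
          (up_br h ξ γ).down α β h1.2 h2.2.2.2⟩)
      · exact absurd h2.2.1 (not_lt.mpr h1.1)
      · exact absurd h2.2.1 (not_lt.mpr h1.1)
  · rintro ξ α β γ h1 h2 hαβ
    rcases h2 with h2 | h2 | h2
    · rcases h1 with h1 | h1 | h1
      · exact Or.inl ⟨(h.hr.lt ξ β γ h2.2).trans h2.1, h.hr.tree ξ α β γ h1.2 h2.2 hαβ⟩
      · exact absurd h2.1 (not_lt.mpr h1.1)
      · exact absurd h2.1 (not_lt.mpr h1.1)
    · rcases h1 with h1 | h1 | h1
      · exact absurd h1.1 (not_lt.mpr h2.1)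
      · exact Or.inr (Or.inl ⟨h2.2.1, h1.2.1, h.ht.tree ξ α β γ h1.2.2 h2.2.2 hαβ⟩)
      · refine Or.inr (Or.inr ⟨h2.2.1, h1.2.1, (h.ht.sup ξ β γ h2.2.2).1, ?_⟩)
        rw [up_mono h h2.2.1 h2.2.2]
        exact h1.2.2.2
    · rcases h1 with h1 | h1 | h1
      · exact absurd h1.1 (not_lt.mpr h2.1)
      · exact absurd (hαβ.trans h2.2.1) (not_lt.mpr h1.2.1)
      · exact Or.inl ⟨h2.2.1, (up_br h ξ γ).chain α h1.2.2.2 β h2.2.2.2 hαβ⟩
  · intro α hα β hβ hαβ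
    rcases lt_or_ge β ν with hβν | hβν
    · filter_upwards [h.hr.meas α (hmem α hα (hαβ.trans hβν)) β (hmem β hβ hβν) hαβ] with ξ hξ
      exact Or.inl ⟨hβν, hξ⟩
    · have hβt := hmem' β hβ hβν
      rcases lt_or_ge α ν with hαν | hαν
      · have hb := h.hb.meas α (hmem α hα hαν)
        rcases hβν.lt_or_eq with h1 | h1
        · filter_upwards [hb, h.ht.meas ν h.hν β hβt h1] with ξ hξ hξ'
          refine Or.inr (Or.inr ⟨hβν, hαν, hβt, ?_⟩)
          unfold up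
          rw [if_pos (Or.inr hξ')]
          exact hξ
        · filter_upwards [hb] with ξ hξ
          refine Or.inr (Or.inr ⟨hβν, hαν, hβt, ?_⟩)
          unfold up
          rw [if_pos (Or.inl h1.symm)]
          exact hξ
      · filter_upwards [h.ht.meas α (hmem' α hα hαν) β hβt hαβ] with ξ hξ
        exact Or.inr (Or.inl ⟨hβν, hαν, hξ⟩)

end Pool.MP_8fac41_lc.FR
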