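import Pool.Agent.Lib.MP_8fac41_lc.FR.P.Push

/-!
# FRP-Lim: unions of chains

`lim p` is the union. It is a tree system (for two or three elements take one index, the strongest of those in which they occur;
`#(⋃ i, (p i).a) ≤ 2 ^ #D`: `mk_iUnion_le` and `mul_eq_self`). `brn_lim`: the set of the `α` which are `ξ`-below or equal to some `top (p i)`.
Chain: `α ≤ top (p i)`, `β ≤ top (p j)`, say `p j` is stronger: `top (p i) ≤_ξ top (p j)` by `Sle`.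
-/

set_option autoImplicit false

universe u

namespace Pool.MP_8fac41_lc.FR

open Cardinal Set Filter

variable {D X : Type u} [LinearOrder D] [WellFoundedLT D] [LinearOrder X] [WellFoundedLT X] [Sett D X]


variable {I : Type u}

/-- the union -/
def lim (p : I → E D X) : Pre D X where
  a := ⋃ i, (p i).1.a
  r := fun ξ α β => ∃ i, (p i).1.r ξ α β

/-- comparable in the strong order -/
def Cmp (p : I → E D X) : Prop := ∀ i j, Sle (p i) (p j) ∨ Sle (p j) (p i)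

private theorem lim_two {p : I → E D X} (h : Cmp p) (i j : I) :
    ∃ k, Sle (p k) (p i) ∧ Sle (p k) (p j) := by
  rcases h i j with h1 | h1
  · exact ⟨i, Sle.refl _, h1⟩
  · exact ⟨j, h1, Sle.refl _⟩

private theorem lim_r_up {q p : E D X} (h : Sle q p) {ξ : D} {α β : X} (hr : p.1.r ξ α β) :
    q.1.r ξ α β := by
  obtain ⟨ha, hb⟩ := p.2.1.sup ξ α β hr
  exact (h.1.2 ξ α ha β hb).2 hr

private theorem lim_a_up {q p : E D X} (h : Sle q p) {α : X} (ha : α ∈ p.1.a) : α ∈ q.1.a :=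
  h.1.1 ha

/-- the elements below the top of `p` are below the top of `q` -/
private theorem lim_Q_up {q p : E D X} (h : Sle q p) {ξ : D} {α : X}
    (ha : α ∈ p.1.Q ξ (top p)) : α ∈ q.1.Q ξ (top q) := by
  have h1 := h.2 ξ
  rcases ha with ha | ha
  · have h2 := lim_r_up h ha
    rcases h1 with h1 | h1
    · exact Or.inl (q.2.1.trans ξ _ _ _ h2 h1)
    · rw [h1] at h2
      exact Or.inl h2
  · rw [ha]
    exact h1

theorem lim_TS {p : I → E D X} (h : Cmp p) (hI : #I ≤ 2 ^ #D) : TS (lim p) := by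
  refine ⟨?_, ?_, ?_, ?_, ?_, ?_⟩
  · have h0 : ℵ₀ ≤ (2 : Cardinal.{u}) ^ #D :=
      (Sett.infD (D := D) (X := X)).le.trans (Cardinal.cantor _).le
    have h1 : #(⋃ i, (p i).1.a : Set X) ≤ Cardinal.sum fun i => #(p i).1.a :=
      Cardinal.mk_iUnion_le_sum_mk
    have h2 : (Cardinal.sum fun i => #(p i).1.a) ≤ Cardinal.sum fun _ : I => (2 : Cardinal.{u}) ^ #D :=
      Cardinal.sum_le_sum _ _ fun i => (p i).2.1.card
    have h3 : (Cardinal.sum fun _ : I => (2 : Cardinal.{u}) ^ #D) = #I * 2 ^ #D :=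
      Cardinal.sum_const' I _
    calc #(lim p).a ≤ #I * 2 ^ #D := (h1.trans h2).trans h3.le
      _ ≤ 2 ^ #D * 2 ^ #D := mul_le_mul_left hI _
      _ = 2 ^ #D := Cardinal.mul_eq_self h0
  · rintro ξ α β ⟨i, hi⟩
    obtain ⟨ha, hb⟩ := (p i).2.1.sup ξ α β hi
    exact ⟨mem_iUnion.2 ⟨i, ha⟩, mem_iUnion.2 ⟨i, hb⟩⟩
  · rintro ξ α β ⟨i, hi⟩
    exact (p i).2.1.lt ξ α β hi
  · rintro ξ α β γ ⟨i, hi⟩ ⟨j, hj⟩
    obtain ⟨k, h1, h2⟩ := lim_two h i j
    exact ⟨k, (p k).2.1.trans ξ α β γ (lim_r_up h1 hi) (lim_r_up h2 hj)⟩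
  · rintro ξ α β γ ⟨i, hi⟩ ⟨j, hj⟩ hαβ
    obtain ⟨k, h1, h2⟩ := lim_two h i j
    exact ⟨k, (p k).2.1.tree ξ α β γ (lim_r_up h1 hi) (lim_r_up h2 hj) hαβ⟩
  · intro α hα β hβ hαβ
    obtain ⟨i, hi⟩ := mem_iUnion.1 hα
    obtain ⟨j, hj⟩ := mem_iUnion.1 hβ
    obtain ⟨k, h1, h2⟩ := lim_two h i j
    filter_upwards [(p k).2.1.meas α (lim_a_up h1 hi) β (lim_a_up h2 hj) hαβ] with ξ hξ
    exact ⟨k, hξ⟩

theorem lim_le {p : I → E D X} (h : Cmp p) (i : I) : lim p ≤ (p i).1 := by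
  refine ⟨subset_iUnion (fun i => (p i).1.a) i, fun ξ α hα β hβ => ⟨?_, fun hr => ⟨i, hr⟩⟩⟩
  rintro ⟨j, hj⟩
  rcases h i j with h1 | h1
  · exact lim_r_up h1 hj
  · exact (h1.1.2 ξ α hα β hβ).1 hj

theorem brn_lim {p : I → E D X} (h : Cmp p) (hI : #I ≤ 2 ^ #D) :
    Brn (lim p) (fun ξ => {α | ∃ i, α ∈ (p i).1.Q ξ (top (p i))}) := by
  refine ⟨fun ξ => ⟨?_, ?_, ?_⟩, ?_⟩
  · rintro α ⟨i, hi⟩
    rcases hi with hi | hi
    · exact mem_iUnion.2 ⟨i, ((p i).2.1.sup ξ _ _ hi).1⟩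
    · rw [hi]
      exact mem_iUnion.2 ⟨i, top_mem (p i)⟩
  · rintro α β ⟨j, hj⟩ ⟨i, hi⟩
    obtain ⟨k, h1, h2⟩ := lim_two h i j
    have h3 := lim_Q_up h1 hi
    have h4 := lim_r_up h2 hj
    refine ⟨k, ?_⟩
    rcases h3 with h3 | h3
    · exact Or.inl ((p k).2.1.trans ξ _ _ _ h4 h3)
    · rw [h3] at h4
      exact Or.inl h4
  · rintro α ⟨i, hi⟩ β ⟨j, hj⟩ hαβ
    obtain ⟨k, h1, h2⟩ := lim_two h i j
    have h3 := lim_Q_up h1 hi
    have h4 := lim_Q_up h2 hj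
    refine ⟨k, ?_⟩
    rcases h4 with h4 | h4
    · rcases h3 with h3 | h3
      · exact (p k).2.1.tree ξ _ _ _ h3 h4 hαβ
      · have h5 := (p k).2.1.lt ξ _ _ h4
        rw [h3] at hαβ
        exact absurd hαβ (lt_asymm h5)
    · rcases h3 with h3 | h3
      · rw [h4]
        exact h3
      · rw [h3, h4] at hαβ
        exact absurd hαβ (lt_irrefl _)
  · intro α hα
    obtain ⟨i, hi⟩ := mem_iUnion.1 hα
    rcases (le_top' (p i) hi).lt_or_eq with h1 | h1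
    · filter_upwards [(p i).2.1.meas α hi _ (top_mem (p i)) h1] with ξ hξ
      exact ⟨i, Or.inl hξ⟩
    · exact Eventually.of_forall fun ξ => ⟨i, Or.inr h1⟩

end Pool.MP_8fac41_lc.FR
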