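import Pool.Agent.Lib.MP_8fac41_lc.FR.P.Lim

/-!
# FRP-Low: lower bounds of chains, for one sequence and for pairs

`addE (lim p)` with a new top `m` above everything (`ts_bdd`) and the branch `brn_lim`. `Sle` to `p i`: `lim_le`, `addTop_le`, and `top (p i)` is
in the branch for every `ξ`. For pairs with `Sim N ν (p i) (q i)`: `rst (lim p) ν = rst (lim q) ν` and `(lim p).P ξ ν = ⋃ i, (p i).P ξ ν` (`P_inter`-like; for
`α <_ξ ν` in `p i` just take `i`); `ν ≤ m`, `ν ≠ m` (`rst_addTop'`, `addTop_P`).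
-/

set_option autoImplicit false

universe u

namespace Pool.MP_8fac41_lc.FR

open Cardinal Set Filter

variable {D X : Type u} [LinearOrder D] [WellFoundedLT D] [LinearOrder X] [WellFoundedLT X] [Sett D X]


variable {I : Type u}

theorem low [Nonempty I] {p : I → E D X} (h : Cmp p) (hI : #I ≤ 2 ^ #D) : ∃ m : E D X, ∀ i, Sle m (p i) := by
  have hT := lim_TS h hI
  obtain ⟨m, hm⟩ := ts_bdd hT
  refine ⟨addE (lim p) hT m hm _ (brn_lim h hI), fun i => ⟨?_, fun ξ => ?_⟩⟩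
  · exact (addTop_le hm _).trans (lim_le h i)
  · rw [top_addE]
    exact Or.inl (Or.inr ⟨rfl, i, Or.inr rfl⟩)

private theorem low_rst_lim {p q : I → E D X} {ν : X} (h : ∀ i, rst (p i).1 ν = rst (q i).1 ν) :
    rst (lim p) ν = rst (lim q) ν := by
  have ha : ∀ i x, (x ∈ (p i).1.a ∧ x < ν) ↔ (x ∈ (q i).1.a ∧ x < ν) := by
    intro i x
    have := congrArg (fun t : Pre D X => x ∈ t.a) (h i)
    exact iff_of_eq this
  have hr : ∀ i ξ α β, ((p i).1.r ξ α β ∧ β < ν) ↔ ((q i).1.r ξ α β ∧ β < ν) := by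
    intro i ξ α β
    have := congrArg (fun t : Pre D X => t.r ξ α β) (h i)
    exact iff_of_eq this
  refine Pre.ext ?_ ?_
  · ext x
    change (x ∈ ⋃ i, (p i).1.a) ∧ x < ν ↔ (x ∈ ⋃ i, (q i).1.a) ∧ x < ν
    rw [mem_iUnion, mem_iUnion]
    constructor
    · rintro ⟨⟨i, hi⟩, hx⟩
      exact ⟨⟨i, ((ha i x).1 ⟨hi, hx⟩).1⟩, hx⟩
    · rintro ⟨⟨i, hi⟩, hx⟩
      exact ⟨⟨i, ((ha i x).2 ⟨hi, hx⟩).1⟩, hx⟩
  · funext ξ α β
    refine propext ?_
    change (∃ i, (p i).1.r ξ α β) ∧ β < ν ↔ (∃ i, (q i).1.r ξ α β) ∧ β < ν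
    constructor
    · rintro ⟨⟨i, hi⟩, hx⟩
      exact ⟨⟨i, ((hr i ξ α β).1 ⟨hi, hx⟩).1⟩, hx⟩
    · rintro ⟨⟨i, hi⟩, hx⟩
      exact ⟨⟨i, ((hr i ξ α β).2 ⟨hi, hx⟩).1⟩, hx⟩

theorem low_pair [Nonempty I] {p q : I → E D X} (hI : #I ≤ 2 ^ #D) {N : Set D} {ν : X}
    (h : ∀ i j, (Sle (p i) (p j) ∧ Sle (q i) (q j)) ∨ (Sle (p j) (p i) ∧ Sle (q j) (q i)))
    (hs : ∀ i, Sim N ν (p i).1 (q i).1) :
    ∃ m m' : E D X, (∀ i, Sle m (p i)) ∧ (∀ i, Sle m' (q i)) ∧ Sim N ν m.1 m'.1 := by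
  have hp : Cmp p := fun i j => (h i j).imp And.left And.left
  have hq : Cmp q := fun i j => (h i j).imp And.right And.right
  have hTp := lim_TS hp hI
  have hTq := lim_TS hq hI
  obtain ⟨m, hm⟩ := ts_bdd hTp
  obtain ⟨m', hm'⟩ := ts_bdd hTq
  obtain ⟨i0⟩ := (inferInstance : Nonempty I)
  have hνp : ν ∈ (lim p).a := mem_iUnion.2 ⟨i0, (hs i0).m0⟩
  have hνq : ν ∈ (lim q).a := mem_iUnion.2 ⟨i0, (hs i0).m1⟩
  refine ⟨addE (lim p) hTp m hm _ (brn_lim hp hI), addE (lim q) hTq m' hm' _ (brn_lim hq hI),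
    fun i => ⟨(addTop_le hm _).trans (lim_le hp i), fun ξ => ?_⟩,
    fun i => ⟨(addTop_le hm' _).trans (lim_le hq i), fun ξ => ?_⟩, ?_⟩
  · rw [top_addE]
    exact Or.inl (Or.inr ⟨rfl, i, Or.inr rfl⟩)
  · rw [top_addE]
    exact Or.inl (Or.inr ⟨rfl, i, Or.inr rfl⟩)
  · refine ⟨Or.inr hνp, Or.inr hνq, ?_, fun ξ hξ => ?_⟩
    · change rst (addTop (lim p) m _) ν = rst (addTop (lim q) m' _) ν
      rw [rst_addTop' (hm ν hνp).le, rst_addTop' (hm' ν hνq).le]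
      exact low_rst_lim fun i => (hs i).rst
    · change (addTop (lim p) m _).P ξ ν = (addTop (lim q) m' _).P ξ ν
      rw [addTop_P (hm ν hνp).ne, addTop_P (hm' ν hνq).ne]
      ext α
      have hP : ∀ i, (p i).1.r ξ α ν ↔ (q i).1.r ξ α ν := by
        intro i
        have := congrArg (fun s : Set X => α ∈ s) ((hs i).P ξ hξ)
        exact iff_of_eq this
      change (∃ i, (p i).1.r ξ α ν) ↔ (∃ i, (q i).1.r ξ α ν)
      exact exists_congr hP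

end Pool.MP_8fac41_lc.FR
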