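import Pool.Agent.Lib.MP_8fac41_lc.FR.P.GelE

/-!
# FRP-Mix

`gelE t` with `r = rst u0.1 ν = rst u1.1 ν` and `b ξ = u1.P ξ ν` for `ξ ∈ N1`, `b ξ = u0.P ξ ν` for `ξ ∉ N1`
(`P_inter` for `u0 ≤ t`, `u1 ≤ t`; `meas`: both are branches, `brn_P_rst`).
-/

set_option autoImplicit false

universe u

namespace Pool.MP_8fac41_lc.FR

open Cardinal Set Filter

variable {D X : Type u} [LinearOrder D] [WellFoundedLT D] [LinearOrder X] [WellFoundedLT X] [Sett D X]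


theorem mix {N1 N2 : Set D} {ν : X} {t u0 u1 : E D X} (hν : ν ∈ t.1.a) (h0 : u0 ≤ t) (h1 : u1 ≤ t)
    (h : Sim (N1 ∪ N2) ν u0.1 u1.1) :
    ∃ u2 : E D X, u2 ≤ t ∧ Sim N1 ν u2.1 u0.1 ∧ Sim N2 ν u2.1 u1.1 := by
  classical
  have hb0 := brn_P_rst u0.2.1 h.m0
  have hb1 := brn_P_rst u1.2.1 h.m1
  rw [← h.rst] at hb1
  have hGH : GH t.1 (rst u0.1 ν) ν
      (fun ξ => if ξ ∈ N1 then u1.1.P ξ ν else u0.1.P ξ ν) := by
    refine ⟨t.2.1, hν, rst_TS u0.2.1 ν, fun x hx => hx.2, rst_mono h0 ν, ⟨fun ξ => ?_, ?_⟩,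
      fun ξ => ?_⟩
    · by_cases hξ : ξ ∈ N1
      · simpa only [if_pos hξ] using hb1.br ξ
      · simpa only [if_neg hξ] using hb0.br ξ
    · intro α hα
      filter_upwards [hb0.meas α hα, hb1.meas α hα] with ξ h2 h3
      by_cases hξ : ξ ∈ N1
      · simpa only [if_pos hξ] using h3
      · simpa only [if_neg hξ] using h2
    · by_cases hξ : ξ ∈ N1
      · simpa only [if_pos hξ] using P_inter t.2.1 h1 hν ξ
      · simpa only [if_neg hξ] using P_inter t.2.1 h0 hν ξ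
  obtain ⟨u2, h2, h3, h4, _, h5⟩ := gelE t hGH
  refine ⟨u2, h2, ⟨h5, h.m0, h3, fun ξ hξ => ?_⟩, ⟨h5, h.m1, h3.trans h.rst, fun ξ hξ => ?_⟩⟩
  · rw [h4 ξ, if_neg hξ]
  · rw [h4 ξ]
    by_cases hξ1 : ξ ∈ N1
    · rw [if_pos hξ1]
    · rw [if_neg hξ1]
      exact h.P ξ (fun hc => hc.elim hξ1 hξ)

end Pool.MP_8fac41_lc.FR
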