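import Pool.Agent.Lib.MP_8fac41_lc.FR.P.Top

/-!
# FRP-Push

New top `m > top q` with the predecessors of `brn_Q_ite` (`τ = top p`, `m = top q`): then `top p` is `ξ`-below the new top for
all `ξ`. `Sim ∅ ν`: `rst_addTop'`, `addTop_P`. `Sle` is reflexive and transitive (`TS.trans`).
-/

set_option autoImplicit false

universe u

namespace Pool.MP_8fac41_lc.FR

open Cardinal Set Filter

variable {D X : Type u} [LinearOrder D] [WellFoundedLT D] [LinearOrder X] [WellFoundedLT X] [Sett D X]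


theorem Sle.refl (p : E D X) : Sle p p := ⟨le_refl p, fun _ => Or.inr rfl⟩

theorem Sle.trans {p q r : E D X} (h : Sle r q) (h' : Sle q p) : Sle r p := by
  refine ⟨le_trans h.1 h'.1, fun ξ => ?_⟩
  have hrq : r.1 ≤ q.1 := h.1
  have hqp : q.1 ≤ p.1 := h'.1
  have hpq : top p ∈ q.1.a := hqp.1 (top_mem p)
  have hold : r.1.r ξ (top p) (top q) ↔ q.1.r ξ (top p) (top q) :=
    hrq.2 ξ (top p) hpq (top q) (top_mem q)
  rcases h'.2 ξ with h1 | h1
  · rcases h.2 ξ with h2 | h2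
    · exact Or.inl (r.2.1.trans ξ _ _ _ (hold.2 h1) h2)
    · refine Or.inl ?_
      rw [← h2]
      exact hold.2 h1
  · rw [h1]
    exact h.2 ξ

theorem push {q p : E D X} (h : q ≤ p) :
    ∃ q' : E D X, q' ≤ q ∧ Sle q' p ∧ ∀ ν ∈ q.1.a, Sim ∅ ν q'.1 q.1 := by
  have hqp : q.1 ≤ p.1 := h
  have hτ : top p ∈ q.1.a := hqp.1 (top_mem p)
  have hb := brn_Q_ite q.2.1 (top_mem q) (fun x hx => le_top' q hx) hτ
  obtain ⟨m', hm'⟩ := ts_bdd q.2.1
  have hq'q : (addE q.1 q.2.1 m' hm' _ hb) ≤ q := addTop_le hm' _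
  refine ⟨addE q.1 q.2.1 m' hm' _ hb, hq'q, ⟨le_trans hq'q h, fun ξ => ?_⟩, fun ν hν => ?_⟩
  · rw [top_addE]
    refine Or.inl ?_
    refine Or.inr ⟨rfl, ?_⟩
    by_cases hc : top p ∈ q.1.Q ξ (top q)
    · exact Or.inl ⟨hc, hc⟩
    · exact Or.inr ⟨hc, Or.inr rfl⟩
  · exact ⟨Or.inr hν, hν, rst_addTop' (hm' ν hν).le _, fun ξ _ => addTop_P (hm' ν hν).ne _ ξ⟩

end Pool.MP_8fac41_lc.FR
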