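import Pool.Agent.Lib.MP_8fac41_lc.FR.P.Basic

/-!
# FRP-Rst: restriction, branches

All by unfolding the definitions. `rst_TS`: size by `mk_le_mk_of_subset`. `br_Q`, `br_P`: downward closed by transitivity,
chain by `TS.tree`. `br_P_rst`: for `ν ∈ t.a` (or not) the set `t.P ξ ν` is a downward closed chain of `rst t ν`. `br_dc`: the
downward closure of a chain is a chain: `α ≤ γ`, `β ≤ γ'`, `γ ≤ γ'` (chain), so `α, β ≤ γ'`, and use `TS.tree`.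
-/

set_option autoImplicit false

universe u

namespace Pool.MP_8fac41_lc.FR

open Cardinal Set Filter

variable {D X : Type u} [LinearOrder D] [WellFoundedLT D] [LinearOrder X] [WellFoundedLT X] [Sett D X]


theorem rst_TS {t : Pre D X} (h : TS t) (ν : X) : TS (rst t ν) where
  card := (mk_le_mk_of_subset (show t.a ∩ Iio ν ⊆ t.a from inter_subset_left)).trans h.card
  sup := by
    intro ξ α β hr
    have h1 := h.sup ξ α β hr.1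
    exact ⟨⟨h1.1, (h.lt ξ α β hr.1).trans hr.2⟩, ⟨h1.2, hr.2⟩⟩
  lt := fun ξ α β hr => h.lt ξ α β hr.1
  trans := fun ξ α β γ hr hr' => ⟨h.trans ξ α β γ hr.1 hr'.1, hr'.2⟩
  tree := fun ξ α β γ hr hr' hlt =>
    ⟨h.tree ξ α β γ hr.1 hr'.1 hlt, (h.lt ξ β γ hr'.1).trans hr'.2⟩
  meas := by
    intro α hα β hβ hlt
    filter_upwards [h.meas α hα.1 β hβ.1 hlt] with ξ hξ
    exact ⟨hξ, hβ.2⟩

theorem le_rst (t : Pre D X) (ν : X) : t ≤ rst t ν :=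
  ⟨inter_subset_left, fun _ _ _ _ hβ => ⟨fun hr => ⟨hr, hβ.2⟩, fun hr => hr.1⟩⟩

theorem rst_mono {q p : Pre D X} (h : q ≤ p) (ν : X) : rst q ν ≤ rst p ν :=
  ⟨inter_subset_inter_left _ h.1, fun ξ α hα β hβ =>
    ⟨fun hr => ⟨(h.2 ξ α hα.1 β hβ.1).1 hr.1, hβ.2⟩,
      fun hr => ⟨(h.2 ξ α hα.1 β hβ.1).2 hr.1, hβ.2⟩⟩⟩

theorem rst_eq_self {q : Pre D X} (h : TS q) {ν : X} (hν : ∀ x ∈ q.a, x < ν) : rst q ν = q := by
  refine Pre.ext ?_ ?_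
  · exact inter_eq_left.2 hν
  · funext ξ α β
    refine propext ⟨fun hr => hr.1, fun hr => ⟨hr, hν _ (h.sup ξ α β hr).2⟩⟩

theorem le_rst_of {q p : Pre D X} (h : q ≤ p) {ν : X} (hν : ∀ x ∈ p.a, x < ν) : rst q ν ≤ p :=
  ⟨fun x hx => ⟨h.1 hx, hν x hx⟩, fun ξ α hα β hβ =>
    ⟨fun hr => (h.2 ξ α hα β hβ).1 hr.1, fun hr => ⟨(h.2 ξ α hα β hβ).2 hr, hν β hβ⟩⟩⟩

theorem rst_P {t : Pre D X} {ν β : X} (h : β < ν) (ξ : D) : (rst t ν).P ξ β = t.P ξ β := by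
  ext α
  exact ⟨fun hr => hr.1, fun hr => ⟨hr, h⟩⟩

/-- what an extension knows about old elements -/
theorem P_inter {q p : Pre D X} (hp : TS p) (h : q ≤ p) {β : X} (hβ : β ∈ p.a) (ξ : D) : q.P ξ β ∩ p.a = p.P ξ β := by
  ext α
  constructor
  · rintro ⟨h1, h2⟩
    exact (h.2 ξ α h2 β hβ).1 h1
  · intro h1
    have h2 := (hp.sup ξ α β h1).1
    exact ⟨(h.2 ξ α h2 β hβ).2 h1, h2⟩

theorem br_P {t : Pre D X} (h : TS t) (ξ : D) (ν : X) : Br t ξ (t.P ξ ν) where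
  sub := fun α hα => (h.sup ξ α ν hα).1
  down := fun α β hr hβ => h.trans ξ α β ν hr hβ
  chain := fun α hα β hβ hlt => h.tree ξ α β ν hα hβ hlt

theorem br_Q {t : Pre D X} (h : TS t) (ξ : D) {m : X} (hm : m ∈ t.a) : Br t ξ (t.Q ξ m) where
  sub := by
    rintro α (hα | rfl)
    · exact (h.sup ξ α m hα).1
    · exact hm
  down := by
    rintro α β hr (hβ | rfl)
    · exact Or.inl (h.trans ξ α β m hr hβ)
    · exact Or.inl hr
  chain := by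
    rintro α (hα | rfl) β (hβ | hβ) hlt
    · exact h.tree ξ α β m hα hβ hlt
    · rw [hβ]
      exact hα
    · exact absurd (hlt.trans (h.lt ξ β α hβ)) (lt_irrefl _)
    · rw [hβ] at hlt
      exact absurd hlt (lt_irrefl _)

theorem br_P_rst {t : Pre D X} (h : TS t) (ξ : D) (ν : X) : Br (rst t ν) ξ (t.P ξ ν) where
  sub := fun α hα => ⟨(h.sup ξ α ν hα).1, h.lt ξ α ν hα⟩
  down := fun α β hr hβ => h.trans ξ α β ν hr.1 hβ
  chain := fun α hα β hβ hlt => ⟨h.tree ξ α β ν hα hβ hlt, h.lt ξ β ν hβ⟩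

theorem br_dc {t : Pre D X} (h : TS t) {ξ : D} {s : Set X} (hs : s ⊆ t.a)
    (hc : ∀ α ∈ s, ∀ β ∈ s, α < β → t.r ξ α β) : Br t ξ (dc t ξ s) where
  sub := by
    rintro α ⟨γ, hγ, hr | rfl⟩
    · exact (h.sup ξ α γ hr).1
    · exact hs hγ
  down := by
    rintro α β hr ⟨γ, hγ, hr' | rfl⟩
    · exact ⟨γ, hγ, Or.inl (h.trans ξ α β γ hr hr')⟩
    · exact ⟨β, hγ, Or.inl hr⟩
  chain := by
    have up : ∀ α γ γ' : X, (t.r ξ α γ ∨ α = γ) → (t.r ξ γ γ' ∨ γ = γ') →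
        (t.r ξ α γ' ∨ α = γ') := by
      rintro α γ γ' (h1 | rfl) (h2 | rfl)
      · exact Or.inl (h.trans ξ _ _ _ h1 h2)
      · exact Or.inl h1
      · exact Or.inl h2
      · exact Or.inr rfl
    have key : ∀ γ ∈ s, ∀ α β : X, (t.r ξ α γ ∨ α = γ) → (t.r ξ β γ ∨ β = γ) → α < β →
        t.r ξ α β := fun γ hγ α β h1 h2 hlt => (br_Q h ξ (hs hγ)).chain α h1 β h2 hlt
    rintro α ⟨γ, hγ, h1⟩ β ⟨γ', hγ', h2⟩ hlt
    rcases lt_trichotomy γ γ' with h3 | h3 | h3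
    · exact key γ' hγ' α β (up α γ γ' h1 (Or.inl (hc γ hγ γ' hγ' h3))) h2 hlt
    · exact key γ' hγ' α β (up α γ γ' h1 (Or.inr h3)) h2 hlt
    · exact key γ hγ α β h1 (up β γ' γ h2 (Or.inl (hc γ' hγ' γ hγ h3))) hlt

/-- the predecessors of `ν` are a branch of the restriction to `ν` -/
theorem brn_P_rst {t : Pre D X} (h : TS t) {ν : X} (hν : ν ∈ t.a) : Brn (rst t ν) (fun ξ => t.P ξ ν) where
  br := fun ξ => br_P_rst h ξ ν
  meas := fun α hα => h.meas α hα.1 ν hν hα.2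

/-- the predecessors of the top and the top -/
theorem brn_Q {t : Pre D X} (h : TS t) {m : X} (hm : m ∈ t.a) (hm' : ∀ x ∈ t.a, x ≤ m) : Brn t (fun ξ => t.Q ξ m) where
  br := fun ξ => br_Q h ξ hm
  meas := by
    intro α hα
    rcases (hm' α hα).lt_or_eq with h1 | h1
    · filter_upwards [h.meas α hα m hm h1] with ξ hξ
      exact Or.inl hξ
    · exact Filter.Eventually.of_forall fun ξ => Or.inr h1

/-- the predecessors of the top, changed on a small set -/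
theorem brn_Q_ite {t : Pre D X} (h : TS t) {m τ : X} (hm : m ∈ t.a) (hm' : ∀ x ∈ t.a, x ≤ m) (hτ : τ ∈ t.a) :
    Brn t (fun ξ => {α | (τ ∈ t.Q ξ m ∧ α ∈ t.Q ξ m) ∨ (τ ∉ t.Q ξ m ∧ α ∈ t.Q ξ τ)}) where
  br := by
    intro ξ
    by_cases h1 : τ ∈ t.Q ξ m
    · have h2 : {α | (τ ∈ t.Q ξ m ∧ α ∈ t.Q ξ m) ∨ (τ ∉ t.Q ξ m ∧ α ∈ t.Q ξ τ)} = t.Q ξ m := by
        ext α
        simp [h1]
      show Br t ξ {α | (τ ∈ t.Q ξ m ∧ α ∈ t.Q ξ m) ∨ (τ ∉ t.Q ξ m ∧ α ∈ t.Q ξ τ)}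
      rw [h2]
      exact br_Q h ξ hm
    · have h2 : {α | (τ ∈ t.Q ξ m ∧ α ∈ t.Q ξ m) ∨ (τ ∉ t.Q ξ m ∧ α ∈ t.Q ξ τ)} = t.Q ξ τ := by
        ext α
        simp [h1]
      show Br t ξ {α | (τ ∈ t.Q ξ m ∧ α ∈ t.Q ξ m) ∨ (τ ∉ t.Q ξ m ∧ α ∈ t.Q ξ τ)}
      rw [h2]
      exact br_Q h ξ hτ
  meas := by
    intro α hα
    filter_upwards [(brn_Q h hm hm').meas α hα, (brn_Q h hm hm').meas τ hτ] with ξ h1 h2
    exact Or.inl ⟨h2, h1⟩

end Pool.MP_8fac41_lc.FR
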